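import Pool.Agent.N986.U.SmallU
import Pool.Agent.N990.U.RatioU
import Pool.Agent.N986.PB.SysDecay

/-!
# The uniform machine: decay of the influence of the boundary condition
-/

set_option autoImplicit false
set_option linter.unusedSectionVars false
set_option linter.unusedVariables false

open MeasureTheory Finset Function Filter Topology
open scoped ENNReal Classical
open Pool.Agent.N986.PB

namespace Pool.Agent.N990.Mach

noncomputable section

section core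

variable {ι τ K Y V : Type*} [Group K] [MeasurableSpace K]
    [NormedAddCommGroup Y] [NormedSpace ℝ Y] [NormedAddCommGroup V] [NormedSpace ℝ V]
    {ν : Measure K} {c : Cst}

/-- decay of the influence of the boundary condition, explicit form -/
theorem influence_core [IsProbabilityMeasure ν] (S : Sys ι τ K Y V ν c)
    {β k₀ k q e0 m δ : ℝ} (hβ1 : 1 ≤ β)
    (h2β : ∀ A ⊆ S.Lam, ∀ z ∈ A, ∀ ψ : ι → K,
      (∀ y, y ∉ A → S.d z y ≤ rad k₀ β → S.nrm (ψ y) ≤ β ^ (-1 / 2 + e0 / 2)) →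
      ev ν (S.w β) A (ind fun φ => β ^ (-1 / 2 + e0) < S.nrm (φ z)) ψ ≤
        ENNReal.ofReal (Real.exp (-β ^ e0)))
    (hk₀ : k₀ ≤ k) (hk : 0 < k) (hm : 0 ≤ m) (hq : 0 < q)
    (hδ : δ = (q - m * k) / 2) (hδ0 : 0 < δ) (hqδ : 0 < q - δ)
    (hRβ : Ratio S.d ν (S.w β) S.Lam (rad k β) (S.sm (β ^ (-1 / 2 + e0)))
      (ENNReal.ofReal (β ^ (-q))))
    (a1 : 2 * c.Cg * ((rad k β : ℝ) + 2) ^ c.Dg ≤ β ^ δ) (a2 : q * Real.log β ≤ β ^ e0)
    (a3 : Real.exp (2 * m) ≤ β ^ δ) (a4 : 2 ≤ β ^ (q - δ))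
    (W A : Finset ι) (r : ℕ) (hW : W ⊆ S.Lam)
    (hA : ∀ a ∈ A, ∀ y ∉ W, r < S.d a y) (f : (ι → K) → ℝ≥0∞) (hf : Measurable f)
    (hf1 : ∀ φ, f φ ≤ 1) (hfA : ∀ φ φ' : ι → K, (∀ a ∈ A, φ a = φ' a) → f φ = f φ')
    (ψ ψ' : ι → K) :
    ev ν (S.w β) W f ψ ≤ ev ν (S.w β) W f ψ' +
      A.card * ENNReal.ofReal (2 * Real.exp (m * rad k β) * Real.exp (-(m * r))) := by
  have hβ0 : 0 < β := by linarith
  obtain ⟨R, hRd⟩ : ∃ R, R = rad k β := ⟨_, rfl⟩
  rw [← hRd] at a1 hRβ ⊢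
  have hw : Good ν (S.w β) := S.good (IsProbabilityMeasure.ne_zero ν) β
  have hVG : MeasurableSet (S.sm (β ^ (-1 / 2 + e0))) := S.nrm_meas measurableSet_Iic
  have hRk : (R : ℝ) ≤ k * Real.log β + 1 := by
    rw [hRd]
    exact (Nat.ceil_lt_add_one (mul_nonneg hk.le (Real.log_nonneg hβ1))).le
  -- the constants
  obtain ⟨N, hN⟩ : ∃ N, N = ⌊c.Cg * ((R : ℝ) + 2) ^ c.Dg⌋₊ := ⟨_, rfl⟩
  have hCg := c.hCg
  have hN1 : (N : ℝ) ≤ c.Cg * ((R : ℝ) + 2) ^ c.Dg := by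
    rw [hN]; exact Nat.floor_le (by positivity)
  obtain ⟨ε₁, hε₁⟩ : ∃ ε₁, ε₁ = ENNReal.ofReal (Real.exp (-β ^ e0)) := ⟨_, rfl⟩
  obtain ⟨ε, hε⟩ : ∃ ε, ε = ENNReal.ofReal (β ^ (-q)) := ⟨_, rfl⟩
  have hθ : (ε₁ + ε) * N ≤ ENNReal.ofReal (β ^ (-(q - δ))) := by
    rw [hε₁, hε, ← ENNReal.ofReal_add (Real.exp_pos _).le (Real.rpow_nonneg hβ0.le _),
      ← ENNReal.ofReal_natCast N, ← ENNReal.ofReal_mul
        (add_nonneg (Real.exp_pos _).le (Real.rpow_nonneg hβ0.le _))]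
    refine ENNReal.ofReal_le_ofReal ?_
    have h1 : Real.exp (-β ^ e0) ≤ β ^ (-q) := by
      rw [Real.rpow_def_of_pos hβ0 (-q)]
      have h9 : -β ^ e0 ≤ Real.log β * (-q) := by linarith
      exact Real.exp_le_exp.2 h9
    have h3 : 0 ≤ β ^ (-q) := Real.rpow_nonneg hβ0.le _
    calc (Real.exp (-β ^ e0) + β ^ (-q)) * N
        ≤ (β ^ (-q) + β ^ (-q)) * (c.Cg * ((R : ℝ) + 2) ^ c.Dg) := by gcongr
      _ = β ^ (-q) * (2 * c.Cg * ((R : ℝ) + 2) ^ c.Dg) := by ring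
      _ ≤ β ^ (-q) * β ^ δ := by gcongr
      _ = _ := by rw [← Real.rpow_add hβ0]; congr 1; ring
  have hθ2 : (ε₁ + ε) * N ≤ 1 / 2 := by
    refine hθ.trans ?_
    have h1 : β ^ (-(q - δ)) ≤ 1 / 2 := by
      rw [Real.rpow_neg hβ0.le, one_div]
      exact inv_anti₀ (by norm_num) a4
    refine (ENNReal.ofReal_le_ofReal h1).trans ?_
    rw [ENNReal.ofReal_div_of_pos (by norm_num)]
    simp
  have hθ3 : (ε₁ + ε) * N ≤ ENNReal.ofReal (Real.exp (-(m * (R + 1)))) := by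
    refine hθ.trans (ENNReal.ofReal_le_ofReal ?_)
    have h1 : m * ((R : ℝ) + 1) ≤ 2 * m + m * k * Real.log β := by
      have := mul_le_mul_of_nonneg_left hRk hm
      nlinarith
    have h3 : 2 * m ≤ δ * Real.log β := by
      have := Real.log_le_log (Real.exp_pos _) a3
      rwa [Real.log_exp, Real.log_rpow hβ0] at this
    rw [Real.rpow_def_of_pos hβ0 (-(q - δ))]
    refine Real.exp_le_exp.2 ?_
    have h4 : q - δ = m * k + δ := by rw [hδ]; ring
    rw [h4]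
    nlinarith
  have hN2 : ∀ z, (W.filter fun y => S.d z y ≤ R + 1).card ≤ N := by
    intro z
    rw [hN]
    refine Nat.le_floor ?_
    have := S.growth W z (R + 1)
    refine this.trans (le_of_eq ?_)
    push_cast
    ring_nf
  have hε1' : ε ≤ 1 := by
    rw [hε, ← ENNReal.ofReal_one]
    exact ENNReal.ofReal_le_ofReal (Real.rpow_le_one_of_one_le_of_nonpos hβ1 (by linarith))
  -- the case of short distances
  rcases A.eq_empty_or_nonempty with hAe | hAe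
  · have h1 : ∀ φ φ', f φ = f φ' := fun φ φ' => hfA φ φ' (by simp [hAe])
    rw [ev_const hw (ψ := ψ) (c := f ψ) fun φ _ => h1 _ _,
      ev_const hw (ψ := ψ') (c := f ψ) fun φ _ => h1 _ _]
    exact le_self_add
  rcases Nat.eq_zero_or_pos (r / (R + 1)) with hr | hr
  · refine (ev_le_one hw hf1).trans (le_trans ?_ le_add_self)
    have h1 : (1 : ℝ≥0∞) ≤ A.card := by exact_mod_cast hAe.card_pos
    have h3 : (r : ℝ) ≤ R := by
      have h4 : r < R + 1 := (Nat.div_eq_zero_iff.1 hr).resolve_left (by omega)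
      exact_mod_cast Nat.lt_succ_iff.1 h4
    have h5 : (1 : ℝ≥0∞) ≤ ENNReal.ofReal (2 * Real.exp (m * R) * Real.exp (-(m * r))) := by
      rw [← ENNReal.ofReal_one]
      refine ENNReal.ofReal_le_ofReal ?_
      rw [mul_assoc, ← Real.exp_add]
      have h6 : 0 ≤ m * R + -(m * r) := by nlinarith
      have := Real.one_le_exp h6
      linarith
    calc (1 : ℝ≥0∞) = 1 * 1 := (one_mul _).symm
      _ ≤ _ := mul_le_mul' h1 h5
  · obtain ⟨n, hn⟩ : ∃ n, n = r / (R + 1) := ⟨_, rfl⟩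
    rw [← hn] at hr
    have hnr : n * (R + 1) ≤ r := by rw [hn]; exact Nat.div_mul_le_self r (R + 1)
    have hnr2 : r < (n + 1) * (R + 1) := by
      rw [hn, Nat.add_one_mul]
      have := Nat.div_add_mod r (R + 1)
      have := Nat.mod_lt r (Nat.succ_pos R)
      nlinarith
    have hfar : ∀ z ∈ far S.d R W {y | y ∉ W}, ∀ y, S.d z y ≤ R → y ∈ W := by
      intro z hz y hy
      by_contra hyW
      have := (Finset.mem_filter.1 hz).2 y hyW
      omega
    have hrad : rad k₀ β ≤ R := by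
      rw [hRd]
      exact Nat.ceil_mono (mul_le_mul_of_nonneg_right hk₀ (Real.log_nonneg hβ1))
    have key := decay S.d R A hw hVG hε1' S.dself S.dsymm S.dtri (S.markov β)
      (by rw [hε]; exact hRβ) (V := W)
      (F := {y | y ∉ W}) hW (fun y hy => hy) (B := fun z => W.filter fun y => S.d z y ≤ R)
      (fun z _ => Finset.filter_subset _ _)
      (fun z _ v hv => by
        rw [S.dsymm]
        exact (Finset.mem_filter.1 hv).2) (ε₁ := ε₁)
      (fun z hz χ => by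
        have hzW : z ∈ W := (Finset.mem_filter.1 hz).1
        have h3 := h2β (W.filter fun y => S.d z y ≤ R) ((Finset.filter_subset _ _).trans hW) z
          (Finset.mem_filter.2 ⟨hzW, by rw [S.dself]; exact Nat.zero_le _⟩) χ
          (fun y hy hd => absurd (Finset.mem_filter.2 ⟨hfar z hz y (hd.trans hrad),
            hd.trans hrad⟩) hy)
        rw [hε₁]
        refine le_trans (le_of_eq ?_) h3
        congr 1
        funext φ
        unfold ind
        by_cases h4 : β ^ (-1 / 2 + e0) < S.nrm (φ z)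
        · rw [if_pos h4, Set.indicator_of_mem]
          · rfl
          · exact not_le.2 h4
        · rw [if_neg h4, Set.indicator_of_notMem]
          exact fun h5 => h5 (not_lt.1 h4)) (N := N) hN2 hθ2 hr
      (fun a ha y hy => lt_of_le_of_lt hnr (hA a ha y hy)) hf hf1 hfA ψ ψ'
      (fun y hy hy' => absurd hy hy')
    refine key.trans (add_le_add le_rfl ?_)
    have h3 : ((ε₁ + ε) * N) ^ n ≤ ENNReal.ofReal (Real.exp (m * R) * Real.exp (-(m * r))) := by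
      calc ((ε₁ + ε) * N) ^ n ≤ (ENNReal.ofReal (Real.exp (-(m * (R + 1))))) ^ n := by gcongr
        _ = ENNReal.ofReal (Real.exp (-(m * (R + 1))) ^ n) :=
            (ENNReal.ofReal_pow (Real.exp_pos _).le n).symm
        _ ≤ _ := by
            refine ENNReal.ofReal_le_ofReal ?_
            rw [← Real.exp_nat_mul, ← Real.exp_add]
            refine Real.exp_le_exp.2 ?_
            have h4 : (r : ℝ) + 1 ≤ (n + 1) * (R + 1) := by exact_mod_cast hnr2
            have h5 := mul_le_mul_of_nonneg_left h4 hm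
            nlinarith
    calc 2 * (A.card : ℝ≥0∞) * ((ε₁ + ε) * N) ^ n
        ≤ 2 * (A.card : ℝ≥0∞) * ENNReal.ofReal (Real.exp (m * R) * Real.exp (-(m * r))) := by
          gcongr
      _ = A.card * (ENNReal.ofReal 2 * ENNReal.ofReal (Real.exp (m * R) * Real.exp (-(m * r)))) := by
          rw [ENNReal.ofReal_ofNat]
          ring
      _ = _ := by
          rw [← ENNReal.ofReal_mul (by norm_num), mul_assoc 2]

end core

/-- **Decay with any rate smaller than `al`, uniform in the constants.** -/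
theorem sharpU (Dg : ℕ) {Cc : ℝ} (hCc : 1 ≤ Cc) {al m : ℝ} (hal : 0 < al) (hm : 0 ≤ m)
    (hma : m < al) : ∀ᶠ p in FU,
    ∀ (K Y V : Type) [Group K] [MeasurableSpace K] [MeasurableMul K] [NormedAddCommGroup Y]
      [NormedSpace ℝ Y] [NormedAddCommGroup V] [NormedSpace ℝ V] (ν : Measure K)
      [IsProbabilityMeasure ν] [ν.IsMulLeftInvariant] (c : Cst),
      c.al = al → c.Dg = Dg → Bd c p.2 → ∃ C : ℝ, 0 < C ∧
      ∀ (ι τ : Type) (S : Sys ι τ K Y V ν c), Cut S Cc → ∀ (W A : Finset ι) (r : ℕ), W ⊆ S.Lam →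
      (∀ a ∈ A, ∀ y ∉ W, r < S.d a y) → ∀ f : (ι → K) → ℝ≥0∞, Measurable f → (∀ φ, f φ ≤ 1) →
      (∀ φ φ' : ι → K, (∀ a ∈ A, φ a = φ' a) → f φ = f φ') → ∀ ψ ψ' : ι → K,
      ev ν (S.w p.1) W f ψ ≤ ev ν (S.w p.1) W f ψ' +
        A.card * ENNReal.ofReal (C * Real.exp (-(m * r))) := by
  obtain ⟨C, hC⟩ := ratioAllU hal (small1U Dg) (small2U Dg hCc)
  obtain ⟨k₀, hk₀, hS2⟩ := small2U Dg hCc
  obtain ⟨C', hC'⟩ : ∃ C', C' = max (max C k₀) 1 := ⟨_, rfl⟩
  have hC1 : 1 ≤ C' := hC' ▸ le_max_right _ _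
  have hCC : C ≤ C' := hC' ▸ (le_max_left _ _).trans (le_max_left _ _)
  have hkC : k₀ ≤ C' := hC' ▸ (le_max_right _ _).trans (le_max_left _ _)
  obtain ⟨J, hJ⟩ := exists_nat_gt (2 * (1 + m * C') / (1 - m / al))
  have h1 : 0 < 1 - m / al := by
    rw [sub_pos, div_lt_one hal]; exact hma
  have h2 : 1 + m * C' < J / 2 * (1 - m / al) := by
    rw [div_lt_iff₀ h1] at hJ
    linarith
  have hmk : m * (J / (2 * al) + C') < J / 2 - 1 := by
    have : J / 2 * (1 - m / al) = J / 2 - m * (J / (2 * al)) := by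
      field_simp
    rw [this] at h2
    rw [mul_add]
    linarith
  have hJ0 : 0 ≤ (J : ℝ) / (2 * al) := by positivity
  obtain ⟨k, hkd⟩ : ∃ k : ℝ, k = J / (2 * al) + C' := ⟨_, rfl⟩
  obtain ⟨q, hqd⟩ : ∃ q : ℝ, q = J / 2 - 1 := ⟨_, rfl⟩
  rw [← hkd, ← hqd] at hmk
  have hk : 0 < k := by rw [hkd]; linarith
  have hq : 0 < q := lt_of_le_of_lt (mul_nonneg hm hk.le) hmk
  obtain ⟨e0, he0, hR⟩ := hC J 1 one_pos
  obtain ⟨δ, hδ⟩ : ∃ δ, δ = (q - m * k) / 2 := ⟨_, rfl⟩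
  have hδ0 : 0 < δ := by rw [hδ]; linarith
  have hmk0 : 0 ≤ m * k := mul_nonneg hm hk.le
  have hqδ : 0 < q - δ := by rw [hδ]; linarith
  have A1 := fu_rad k hk.le 2 1 Dg hδ0
  have A2 := fu_ev (ev_log q he0)
  have A3 := fu_ev (ev_rpow (a := δ) (b := 0) (Real.exp (2 * m)) hδ0)
  have A4 := fu_ev (ev_rpow (a := q - δ) (b := 0) 2 hqδ)
  filter_upwards [hS2 (e0 / 2) e0 (by linarith) (by linarith), hR, A1, A2, A3, A4, fu_ge 1,
    fu_one] with p B2 hR A1 A2 A3 A4 hβ1 hX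
  intro K Y V _ _ _ _ _ _ _ ν _ _ c hcal hD hB
  rw [Real.rpow_zero, mul_one] at A3 A4
  refine ⟨2 * Real.exp (m * rad k p.1), by positivity, fun ι τ S hcut W A r hW hA f hf hf1 hfA ψ
    ψ' => ?_⟩
  have hR' : Ratio S.d ν (S.w p.1) S.Lam (rad k p.1) (S.sm (p.1 ^ (-1 / 2 + e0)))
      (ENNReal.ofReal (p.1 ^ (-q))) := by
    refine ratio_mono (hR K Y V ν c hcal hD hB ι τ S hcut) ?_ (by rw [hqd])
    refine Nat.ceil_mono (mul_le_mul_of_nonneg_right ?_ (Real.log_nonneg hβ1))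
    rw [hkd]
    linarith
  refine influence_core S hβ1 (k₀ := k₀) (k := k) (q := q) (e0 := e0) (m := m) (δ := δ)
    (fun A hA z hz ψ hψ => B2 K Y V ν c hD hB ι τ S hcut A hA z hz ψ hψ) ?_ hk hm hq hδ hδ0 hqδ
    hR' ?_ A2 A3 A4 W A r hW hA f hf hf1 hfA ψ ψ'
  · rw [hkd]; linarith
  · rw [hD]
    refine A1 _ ?_
    rw [pow_one]
    exact mul_le_mul_of_nonneg_left hB.Cg (by norm_num)

end

end Pool.Agent.N990.Mach
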