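import Pool.Agent.N986.U.Infl
import Pool.Agent.N990.U.InflU

/-!
# The coarse slab system, and its consequences
-/

set_option autoImplicit false
set_option linter.unusedSectionVars false
set_option linter.unusedVariables false
set_option linter.style.haveILetI false

open MeasureTheory Matrix Function Filter Topology
open scoped Matrix.Norms.Frobenius ENNReal

namespace Pool.Agent.N986.SL

open Pool.Agent.N986.PB Pool.Agent.N990.Mach

noncomputable section

variable {N D : ℕ} {G : Subgroup (N990.UU N)} [MeasurableSpace G] [BorelSpace G]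

lemma bd_mono {c : Cst} {X Y : ℝ} (h : Bd c X) (hXY : X ≤ Y) : Bd c Y where
  Cg := h.Cg.trans hXY
  C0 := h.C0.trans hXY
  c0 := h.c0.trans (mul_le_mul_of_nonneg_left hXY c.hc0.le)
  Cn := h.Cn.trans hXY
  CT := h.CT.trans hXY
  Cb := h.Cb.trans hXY
  Ch := h.Ch.trans hXY
  cv := h.cv.trans hXY
  nv := h.nv.trans hXY
  r0 := h.r0.trans (mul_le_mul_of_nonneg_left hXY c.hr0.le)
  nm := h.nm.trans hXY

/-- **The slab is a system of the machine, uniformly in the thickness.** -/
theorem sysCU (hG : IsClosed (G : Set (N990.UU N))) (μ : Measure G) [IsProbabilityMeasure μ]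
    [μ.IsMulLeftInvariant] : SysCU D μ (12 * D + 6) := by
  intro al hal hal2
  obtain ⟨δ, hδ, L₀, hL₀⟩ := N990.exists_margin hal hal2
  obtain ⟨E, _, _, K, h⟩ := N990.exists_sysU hG μ D hal hδ
  refine ⟨max L₀ 1, K, K, fun L hL => ?_⟩
  obtain ⟨c, h1, h2, h3, h4⟩ := h L ((le_max_right _ _).trans hL)
    (hL₀ L ((le_max_left _ _).trans hL))
  refine ⟨N990.Lab D L → E, inferInstance, inferInstance, c, h1, h2,
    fun X _ hX => bd_mono h3 hX, fun Λ => ?_⟩
  obtain ⟨S, a1, a2, a3, a4, a5⟩ := h4 Λ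
  refine ⟨S, fun x y r => ?_, a2, a5, a4, a1⟩
  rw [a3]
  exact cd_le (by omega)

/-- **The influence bound, uniformly in the thickness.** -/
theorem inflU (hG : IsClosed (G : Set (N990.UU N))) (μ : Measure G) [IsProbabilityMeasure μ]
    [μ.IsMulLeftInvariant] : InflU D μ := by
  have hD : (0 : ℝ) ≤ D := Nat.cast_nonneg _
  exact inflU_of (by linarith) (sysCU hG μ)

/-- **The tail bound, uniformly in the thickness.** -/
theorem mbU (hG : IsClosed (G : Set (N990.UU N))) (μ : Measure G) [IsProbabilityMeasure μ]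
    [μ.IsMulLeftInvariant] {e : ℝ} (he : 0 < e) :
    ∀ᶠ p in FU, ∀ L : ℕ, 1 ≤ L → (L : ℝ) ≤ p.2 →
      ∀ Q : Measure (N990.Site D → N990.Lab D L → G), AxGibbs μ chi p.1 Q → ∀ y a,
      Q.real {σ | p.1 ^ (-1 / 2 + e) / 2 < ‖N990.Yf σ y a‖} ≤ Real.exp (-p.1 ^ (e / 2)) := by
  have hD : (0 : ℝ) ≤ D := Nat.cast_nonneg _
  exact mbU_of hG (by linarith) (sysCU hG μ) he

end

end Pool.Agent.N986.SL
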