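import Pool.Agent.N986.U.FinalU
import Pool.Agent.N986.U.DecayU
import Pool.Agent.N109.Slab.Bound

/-!
# The slab, uniformly in the thickness: influence and tail bounds from the coarse system
-/

set_option autoImplicit false
set_option linter.unusedSectionVars false
set_option linter.unusedVariables false
set_option linter.style.haveILetI false

open MeasureTheory Matrix Function Filter Topology
open scoped Matrix.Norms.Frobenius ENNReal

namespace Pool.Agent.N986.SL

open Pool.Agent.N986.PB Pool.Agent.N990.Mach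

noncomputable section

variable {N D : ℕ} {G : Subgroup (N990.UU N)} [MeasurableSpace G] [BorelSpace G]

/-- the slab is a system of the machine with the distance in units of `L + 2`, the rate `al` and
the other constants bounded by a power of `L` -/
def SysCU (D : ℕ) (μ : Measure G) (Cc : ℝ) : Prop :=
  ∀ al : ℝ, 0 < al → al < Real.pi / 2 → ∃ (L₁ : ℕ) (C : ℝ) (n : ℕ), ∀ L : ℕ, L₁ ≤ L →
    ∃ (V : Type) (_ : NormedAddCommGroup V) (_ : NormedSpace ℝ V) (c : Cst),
    c.al = al ∧ c.Dg = D ∧ (∀ X : ℝ, 1 ≤ X → C * (L : ℝ) ^ n ≤ X → Bd c X) ∧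
    ∀ Λ : Finset (N990.Site D), ∃ S : Sys (N990.Site D) (N990.Site D) (N990.Lab D L → G)
      (N990.Lab D L → N990.Mt N) V (Measure.pi fun _ : N990.Lab D L => μ) c,
      (∀ (x y : N990.Site D) (r : ℕ), S.d x y ≤ r ↔ N990.dd x y ≤ r * (L + 2)) ∧
      S.Lam = Λ ∧ (∀ β, S.w β = N990.wS β Λ) ∧ S.nrm = N990.nrmS ∧ Cut S Cc

/-- the bound of the constants can be replaced by a power -/
lemma fu_comp {C : ℝ} (hC : 1 ≤ C) (n : ℕ) :
    Tendsto (fun p : ℝ × ℝ => (p.1, C * p.2 ^ n)) FU FU := by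
  rw [FU_basis.tendsto_right_iff]
  intro k _
  obtain ⟨m, hm⟩ := exists_nat_ge (C ^ (2 * (k + 1)) + 2 * n * (k + 1) + k)
  have hC0 : 0 ≤ C ^ (2 * (k + 1)) := by positivity
  refine fu_of m fun p hp => ?_
  obtain ⟨h1, h2, h3⟩ := hp
  have hk0 : (0 : ℝ) ≤ k := Nat.cast_nonneg _
  have hn0 : (0 : ℝ) ≤ 2 * n * (k + 1) := by positivity
  have hX0 : (0 : ℝ) ≤ p.2 := by linarith
  have hβ0 : (0 : ℝ) ≤ p.1 := by
    have : (0 : ℝ) ≤ m := Nat.cast_nonneg _
    linarith
  refine ⟨by simp only; linarith, ?_, ?_⟩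
  · show 1 ≤ C * p.2 ^ n
    exact one_le_mul_of_one_le_of_one_le hC (one_le_pow₀ h2)
  · show (C * p.2 ^ n) ^ (k + 1) ≤ p.1
    have e1 : ((C * p.2 ^ n) ^ (k + 1)) ^ 2 = C ^ (2 * (k + 1)) * p.2 ^ (2 * n * (k + 1)) := by
      rw [mul_pow, mul_pow, ← pow_mul, ← pow_mul, ← pow_mul]
      congr 2 <;> ring
    have e2 : p.2 ^ (2 * n * (k + 1)) ≤ p.1 := by
      refine le_trans (pow_le_pow_right₀ h2 ?_) h3
      have : ((2 * n * (k + 1) : ℕ) : ℝ) ≤ m := by
        push_cast
        linarith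
      have h4 : 2 * n * (k + 1) ≤ m := by exact_mod_cast this
      omega
    have e3 : C ^ (2 * (k + 1)) ≤ p.1 := by linarith
    have e4 : ((C * p.2 ^ n) ^ (k + 1)) ^ 2 ≤ p.1 ^ 2 := by
      rw [e1, sq]
      exact mul_le_mul e3 e2 (by positivity) hβ0
    exact le_of_pow_le_pow_left₀ two_ne_zero hβ0 e4

/-- **The influence bound, uniformly in the thickness.** -/
theorem inflU_of {μ : Measure G} [IsProbabilityMeasure μ] [μ.IsMulLeftInvariant] {Cc : ℝ}
    (hCc : 1 ≤ Cc) (hS : SysCU D μ Cc) : InflU D μ := by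
  classical
  intro m hm0 hm1
  obtain ⟨al, h1, h2⟩ := exists_between hm1
  have hal : 0 < al := lt_of_le_of_lt hm0 h1
  obtain ⟨L₁, C, n, h3⟩ := hS al hal h2
  refine ⟨L₁, ?_⟩
  have h4 := (fu_comp (C := max C 1) (le_max_right _ _) n).eventually
    (sharpU D hCc hal hm0 h1)
  filter_upwards [h4, fu_one] with p h4 hp L hL hLp
  obtain ⟨V, _, _, c, hc1, hc2, hc3, hc4⟩ := h3 L hL
  haveI : (Measure.pi fun _ : N990.Lab D L => μ).IsMulLeftInvariant := inferInstance
  obtain ⟨C', hC', h5⟩ := h4 (N990.Lab D L → G) (N990.Lab D L → N990.Mt N) V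
    (Measure.pi fun _ : N990.Lab D L => μ) c hc1 hc2 (hc3 _
      (one_le_mul_of_one_le_of_one_le (le_max_right _ _) (one_le_pow₀ hp)) (by
        refine mul_le_mul (le_max_left _ _) ?_ (by positivity) (by positivity)
        exact pow_le_pow_left₀ (Nat.cast_nonneg _) hLp n))
  refine ⟨C' * Real.exp m, by positivity, fun Λ A r hA f hf hf1 hfA ψ ψ' => ?_⟩
  obtain ⟨S, hd, hΛ, hw, -, hcut⟩ := hc4 Λ
  have hb : 0 < L + 2 := by omega
  have h6 := h5 (N990.Site D) (N990.Site D) S hcut Λ A (r / (L + 2)) (by rw [hΛ]) (fun a ha y hy => by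
    by_contra hcon
    rw [not_lt, hd] at hcon
    have h7 : r < N990.dd a y := hA a ha y hy
    have h8 := Nat.div_mul_le_self r (L + 2)
    omega) f hf hf1 hfA ψ ψ'
  have e : (axw chi p.1 Λ : (N990.Site D → N990.Lab D L → G) → ℝ≥0∞) = N990.wS p.1 Λ := by
    funext φ
    rw [axw_eq]
    rfl
  rw [hw] at h6
  rw [e]
  refine (le_of_eq ?_).trans (h6.trans (add_le_add (le_of_eq ?_) (mul_le_mul_right ?_ _)))
  · congr
  · congr
  · refine ENNReal.ofReal_le_ofReal ?_
    rw [mul_assoc, ← Real.exp_add]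
    refine mul_le_mul_of_nonneg_left (Real.exp_le_exp.2 ?_) hC'.le
    have h9 : (r : ℝ) ≤ (L + 2) * ((r / (L + 2) : ℕ) + 1) := by
      have := Nat.lt_mul_div_succ r hb
      have h10 : (r : ℝ) < ((L + 2) * (r / (L + 2) + 1) : ℕ) := by exact_mod_cast this
      push_cast at h10 ⊢
      exact h10.le
    have hL2 : (0 : ℝ) < L + 2 := by positivity
    have h11 : m / (L + 2) * r ≤ m * ((r / (L + 2) : ℕ) + 1) := by
      rw [div_mul_eq_mul_div, div_le_iff₀ hL2]
      have := mul_le_mul_of_nonneg_left h9 hm0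
      linarith
    linarith

/-- **The tail bound, uniformly in the thickness.** -/
theorem mbU_of (hG : IsClosed (G : Set (N990.UU N))) {μ : Measure G} [IsProbabilityMeasure μ]
    [μ.IsMulLeftInvariant] {Cc : ℝ} (hCc : 1 ≤ Cc) (hS : SysCU D μ Cc) {e : ℝ} (he : 0 < e) :
    ∀ᶠ p in FU, ∀ L : ℕ, 1 ≤ L → (L : ℝ) ≤ p.2 →
      ∀ Q : Measure (N990.Site D → N990.Lab D L → G), AxGibbs μ chi p.1 Q → ∀ y a,
      Q.real {σ | p.1 ^ (-1 / 2 + e) / 2 < ‖N990.Yf σ y a‖} ≤ Real.exp (-p.1 ^ (e / 2)) := by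
  classical
  obtain ⟨L₁, C, n, h3⟩ := hS 1 one_pos (by have := Real.pi_gt_three; linarith)
  obtain ⟨k₀, hk₀, H⟩ := small2U D hCc
  have h4 := (fu_comp (C := max C 1) (le_max_right _ _) n).eventually
    (H (e / 4) (e / 2) (by positivity) (by linarith))
  -- small thickness
  have h5 : ∀ L : ℕ, ∃ b : ℝ, 1 ≤ L → ∀ β ≥ b,
      ∀ Q : Measure (N990.Site D → N990.Lab D L → G), AxGibbs μ chi β Q → ∀ y a,
      Q.real {σ | β ^ (-1 / 2 + e) / 2 < ‖N990.Yf σ y a‖} ≤ Real.exp (-β ^ (e / 2)) := by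
    intro L
    by_cases hL : 1 ≤ L
    · obtain ⟨b, -, hb⟩ := N109.Slab.mb_of_ax (D := D) hG μ hL he
      exact ⟨b, fun _ => hb⟩
    · exact ⟨0, fun h => absurd h hL⟩
  choose b hb using h5
  obtain ⟨B, hB⟩ := ((Finset.range L₁).image b).bddAbove
  have A1 := fu_ev (ev_rpow (a := -1 / 2 + e) (b := -1 / 2 + e / 2) 2 (by linarith))
  filter_upwards [h4, fu_one, fu_ge B, A1] with p h4 hp hpB hβ1 L hL1 hLp Q hQ y a
  by_cases hLL : L < L₁
  · exact hb L hL1 p.1 ((hB (Finset.mem_coe.2 (Finset.mem_image_of_mem _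
      (Finset.mem_range.2 hLL)))).trans hpB) Q hQ y a
  rw [not_lt] at hLL
  obtain ⟨V, _, _, c, hc1, hc2, hc3, hc4⟩ := h3 L hLL
  haveI : (Measure.pi fun _ : N990.Lab D L => μ).IsMulLeftInvariant := inferInstance
  have h5 := h4 (N990.Lab D L → G) (N990.Lab D L → N990.Mt N) V
    (Measure.pi fun _ : N990.Lab D L => μ) c hc2 (hc3 _
      (one_le_mul_of_one_le_of_one_le (le_max_right _ _) (one_le_pow₀ hp)) (by
        refine mul_le_mul (le_max_left _ _) ?_ (by positivity) (by positivity)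
        exact pow_le_pow_left₀ (Nat.cast_nonneg _) hLp n))
  haveI := hQ.prob
  -- the box around `y`
  obtain ⟨Λ, hΛ⟩ : ∃ Λ : Finset (N990.Site D),
      ∀ z, N990.dd y z ≤ rad k₀ p.1 * (L + 2) → z ∈ Λ := by
    refine ⟨Fintype.piFinset fun i => Finset.Icc (y i - (rad k₀ p.1 * (L + 2) : ℕ))
      (y i + (rad k₀ p.1 * (L + 2) : ℕ)), fun z hz => ?_⟩
    rw [Fintype.mem_piFinset]
    intro i
    have := N990.dd_le.1 hz i
    rw [Finset.mem_Icc]
    omega
  have hyΛ : y ∈ Λ := hΛ y (by rw [N990.dd_self]; exact Nat.zero_le _)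
  obtain ⟨S, hd, hLam, hw, hnrm, hcut⟩ := hc4 Λ
  have h2 := fun ψ => h5 (N990.Site D) (N990.Site D) S hcut Λ (by rw [hLam]) y hyΛ ψ
    fun z hz hdz => absurd (hΛ z ((hd y z _).1 hdz)) hz
  set E : Set (N990.Site D → N990.Lab D L → G) :=
    {σ | p.1 ^ (-1 / 2 + e) / 2 < ‖N990.Yf σ y a‖} with hE
  have mE : MeasurableSet E := measurableSet_lt measurable_const (N109.Slab.Yf_meas y a)
  have h3 : Q E ≤ ENNReal.ofReal (Real.exp (-p.1 ^ (e / 2))) := by
    have h4 : Q E = ∫⁻ φ, E.indicator 1 φ ∂Q := by rw [lintegral_indicator_one mE]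
    rw [h4, hQ.dlr Λ _ (measurable_one.indicator mE)]
    calc _ ≤ ∫⁻ φ, ENNReal.ofReal (Real.exp (-p.1 ^ (e / 2))) ∂Q := by
          refine lintegral_mono fun ψ => ?_
          refine le_trans ?_ (h2 ψ)
          have e0 : axw (L := L) (G := G) chi p.1 Λ = S.w p.1 := by
            rw [hw]
            funext φ
            rw [axw_eq]
            rfl
          have h5 : Pool.Agent.N986.PB.ev (Measure.pi fun _ : N990.Lab D L => μ)
              (axw chi p.1 Λ) Λ (E.indicator 1) ψ ≤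
              Pool.Agent.N986.PB.ev (Measure.pi fun _ : N990.Lab D L => μ) (axw chi p.1 Λ) Λ
                (ind fun φ => p.1 ^ (-1 / 2 + e / 2) < N990.nrmS (φ y)) ψ := by
            unfold Pool.Agent.N986.PB.ev
            refine ENNReal.div_le_div_right (In_mono (fun φ => mul_le_mul_right ?_ _) _) _
            by_cases hφ : φ ∈ E
            · rw [Set.indicator_of_mem hφ]
              unfold ind
              rw [if_pos]
              · exact le_rfl
              · have h6 : p.1 ^ (-1 / 2 + e) / 2 < ‖N990.Yf φ y a‖ := hφ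
                have h7 : ‖N990.Yf φ y a‖ ≤ N990.nrmS (φ y) := N990.le_nrmS (φ y) a
                linarith
            · rw [Set.indicator_of_notMem hφ]; exact zero_le
          refine h5.trans (le_of_eq ?_)
          rw [e0, hnrm]
          congr
    _ = _ := by rw [lintegral_const, measure_univ, mul_one]
  have h8 := ENNReal.toReal_mono ENNReal.ofReal_ne_top h3
  rwa [ENNReal.toReal_ofReal (Real.exp_pos _).le] at h8

end

end Pool.Agent.N986.SL
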