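import Pool.Agent.N986.SL.Final
import Pool.Agent.N990.U.Flt

/-!
# Lattice gauge theory in a slab: the mass gap, from the influence bound and the upper bound
-/

set_option autoImplicit false
set_option linter.unusedSectionVars false
set_option linter.unusedVariables false
set_option linter.style.haveILetI false

open MeasureTheory Matrix Function Filter Topology
open scoped Matrix.Norms.Frobenius ENNReal

namespace Pool.Agent.N986.SL

open Pool.Agent.N986.PB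

noncomputable section

section core

variable {N D L : ℕ} {G : Subgroup (N990.UU N)} [MeasurableSpace G] [BorelSpace G]

/-- The conclusions on the theory in the slab: all but the existence of the measure. -/
structure Good (μ : Measure G) (L : ℕ) (β m M : ℝ) (P : Measure (Link D L → G)) : Prop where
  dlr : Dlr μ chi β P
  uniq : ∀ P' : Measure (Link D L → G), Dlr μ chi β P' → P' = P
  decay : ∃ C : ℝ, 0 < C ∧
    (∀ (V A : Finset (Fin D → ℤ)) (r : ℕ), (∀ a ∈ A, ∀ y ∉ V, r ≤ dd a y) →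
      ∀ F : (Link D L → G) → ℝ, Measurable F → (∀ U, |F U| ≤ 1) →
      (∀ U U' : Link D L → G, (∀ l : Link D L, l.1 ∈ A → U l = U' l) → F U = F U') →
      ∀ U : Link D L → G, |expect μ chi β (cols L V) U F - ∫ U, F U ∂P| ≤
        C * A.card * Real.exp (-(m * r))) ∧
    ∀ (A B : Finset (Fin D → ℤ)) (r : ℕ), (∀ a ∈ A, ∀ y ∈ B, r ≤ dd a y) →
      ∀ F F' : (Link D L → G) → ℝ, Measurable F → Measurable F' → (∀ U, |F U| ≤ 1) →
      (∀ U, |F' U| ≤ 1) →
      (∀ U U' : Link D L → G, (∀ l : Link D L, l.1 ∈ A → U l = U' l) → F U = F U') →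
      (∀ U U' : Link D L → G, (∀ l : Link D L, l.1 ∈ B → U l = U' l) → F' U = F' U') →
      |∫ U, F' U * F U ∂P - (∫ U, F' U ∂P) * ∫ U, F U ∂P| ≤
        C * A.card * Real.exp (-(m * r))
  rc : ∀ (i : Fin D) (S : Submodule ℂ ((Link D L → G) → ℂ)), Alg i S →
    ∃ (H : Type) (_ : NormedAddCommGroup H) (_ : InnerProductSpace ℂ H) (_ : CompleteSpace H)
      (T : H →L[ℂ] H) (J : ((Link D L → G) → ℂ) → H),
      Rec i (S : Set ((Link D L → G) → ℂ)) P T J
  gap : ∀ (i : Fin D) (S : Submodule ℂ ((Link D L → G) → ℂ)), Alg i S →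
    ∀ (H : Type) [NormedAddCommGroup H] [InnerProductSpace ℂ H] [CompleteSpace H]
      (T : H →L[ℂ] H) (J : ((Link D L → G) → ℂ) → H),
      Rec i (S : Set ((Link D L → G) → ℂ)) P T J →
      IsSelfAdjoint T ∧ ‖T‖ ≤ 1 ∧ ‖J fun _ => 1‖ = 1 ∧
      (∀ x, T x = x ↔ ∃ c : ℂ, x = c • J fun _ => 1) ∧
      (∀ z ∈ spectrum ℂ T, z = 1 ∨ ‖z‖ ≤ Real.exp (-m)) ∧
      (Infinite G → 2 ≤ D → GObs G D L i ≤ S → m ≤ massGap T ∧ massGap T ≤ M)

/-- the upper bound -/
def UpB (D L : ℕ) (μ : Measure G) (β M : ℝ) : Prop :=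
  ∀ i : Fin D, Infinite G → 2 ≤ D → ∃ F : (Link D L → G) → ℝ, Half i F ∧
    (∀ g : (Fin D → ℤ) → ℕ → G, (∀ x, g x 0 = 1) → ∀ U, F (gt g U) = F U) ∧
    ∀ P : Measure (Link D L → G), Dlr μ chi β P → 0 < corr i P F 0 ∧
      Real.exp (-(2 * M)) * corr i P F 0 ≤ corr i P F 2

/-- **The mass gap from the influence bound and the upper bound.** -/
theorem slab_core (hG : IsClosed (G : Set (N990.UU N))) (μ : Measure G) [IsProbabilityMeasure μ]
    [μ.IsMulLeftInvariant] {β m M C : ℝ} (hI : AxInfl D L μ chi β m C) (hC : 0 < C) (hm : 0 < m)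
    (hU : UpB D L μ β M) : ∃ P : Measure (Link D L → G), Good μ L β m M P := by
  classical
  haveI : CompactSpace G := isCompact_iff_compactSpace.1 hG.isCompact
  haveI : SecondCountableTopology (N990.UU N) :=
    TopologicalSpace.Subtype.secondCountableTopology _
  haveI : SecondCountableTopology G := TopologicalSpace.Subtype.secondCountableTopology _
  haveI : μ.IsMulRightInvariant := right_invariant μ
  haveI : μ.IsInvInvariant := inv_invariant μ
  obtain ⟨P, h2, h3, h4, h5⟩ := main hI hC.le hm chi_cont chi_conj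
  have hP := Dlr.gibbs chi_cont h2
  refine ⟨P, h2, h3, ⟨8 * C * Real.exp m + 2 * Real.exp (2 * m), by positivity, h4, h5⟩,
    fun i S hS => exists_rec hI hC.le hm chi_cont chi_conj chi_inv hP hS, ?_⟩
  intro i S hS H _ _ _ T J hR
  obtain ⟨a1, a2, a3, a4, a5, a6, a7⟩ :=
    rec_gap hI hC.le hm chi_cont chi_conj chi_inv hP hS hR
  refine ⟨a1, a2, a4, fun x => ⟨a7 x, ?_⟩, a6, fun hi1 hi2 hle => ?_⟩
  · rintro ⟨c, rfl⟩
    rw [map_smul, a3]
  · obtain ⟨F, hF, hF', hF2⟩ := hU i hi1 hi2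
    obtain ⟨c1, c2⟩ := hF2 P h2
    have hd : (fun U => ((F U + -(∫ U, F U ∂P) : ℝ) : ℂ)) ∈ S :=
      hle ⟨(hF.add (Half.const i _)).obs, fun g hg U => by
        show ((F (gt g U) + _ : ℝ) : ℂ) = _
        rw [hF' g hg]⟩
    exact massGap_bd a6
      (rec_upper hI hC.le hm chi_cont chi_conj chi_inv hP hS hR hF hd c1 c2)

/-- the upper bound, for one thickness -/
theorem upB (hG : IsClosed (G : Set (N990.UU N))) (μ : Measure G) [IsProbabilityMeasure μ]
    [μ.IsMulLeftInvariant] (hL : 1 ≤ L) {m₀ : ℝ} (hm₀ : 0 < m₀)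
    (h : 2 * Real.cosh m₀ - 2 = N990.lam0 L) {ε : ℝ} (hε : 0 < ε) :
    ∃ b : ℝ, ∀ β ≥ b, UpB D L μ β (m₀ + ε) := by
  classical
  have hup : ∀ i : Fin D, ∃ b : ℝ, Infinite G → 2 ≤ D → ∃ F : (Link D L → G) → ℝ, Half i F ∧
      (∀ g : (Fin D → ℤ) → ℕ → G, (∀ x, g x 0 = 1) → ∀ U, F (gt g U) = F U) ∧
      ∀ β ≥ b, ∀ P : Measure (Link D L → G), Dlr μ chi β P → 0 < corr i P F 0 ∧
        Real.exp (-(2 * (m₀ + ε))) * corr i P F 0 ≤ corr i P F 2 := by
    intro i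
    by_cases hi : Infinite G ∧ 2 ≤ D
    · obtain ⟨hi1, hi2⟩ := hi
      haveI : Nontrivial (Fin D) := Fin.nontrivial_iff_two_le.2 hi2
      obtain ⟨i1, hi3⟩ := exists_ne i
      obtain ⟨F, hF, -, hF', b, -, hb⟩ := N109.Slab.upper (D := D) hG μ hL (Ne.symm hi3) hm₀ h hε
      exact ⟨b, fun _ _ => ⟨F, hF, hF', hb⟩⟩
    · exact ⟨0, fun h1 h2 => absurd ⟨h1, h2⟩ hi⟩
  choose b hb using hup
  obtain ⟨b2, hb2⟩ := (Set.finite_range b).bddAbove
  refine ⟨b2, fun β hβ i h1 h2 => ?_⟩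
  obtain ⟨F, hF, hF', hF2⟩ := hb i h1 h2
  exact ⟨F, hF, hF', hF2 β ((hb2 ⟨i, rfl⟩).trans hβ)⟩

/-- the mass gap for one thickness -/
theorem slab_one (hG : IsClosed (G : Set (N990.UU N))) (μ : Measure G) [IsProbabilityMeasure μ]
    [μ.IsMulLeftInvariant] (hL : 1 ≤ L) {m₀ : ℝ} (hm₀ : 0 < m₀)
    (h : 2 * Real.cosh m₀ - 2 = N990.lam0 L) {ε : ℝ} (hε : 0 < ε) (hε' : ε < m₀) :
    ∃ b : ℝ, ∀ β ≥ b, ∃ P : Measure (Link D L → G), Good μ L β (m₀ - ε) (m₀ + ε) P := by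
  have hm : 0 < m₀ - ε := by linarith
  have hlt : 2 * Real.cosh (m₀ - ε) - 2 < N990.lam0 L := by
    rw [← h]
    have : Real.cosh (m₀ - ε) < Real.cosh m₀ := by
      rw [Real.cosh_lt_cosh, abs_of_pos hm, abs_of_pos hm₀]
      linarith
    linarith
  obtain ⟨b1, hb1, h1⟩ := axInfl (D := D) (L := L) hG μ hm.le hlt
  obtain ⟨b2, h2⟩ := upB (D := D) hG μ hL hm₀ h hε
  refine ⟨max b1 b2, fun β hβ => ?_⟩
  obtain ⟨C, hC, hI⟩ := h1 β ((le_max_left _ _).trans hβ)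
  exact slab_core hG μ hI hC hm (h2 β ((le_max_right _ _).trans hβ))

end core

/-! ### the mass -/

/-- the mass of the quadratic theory is at most `π / (2 L + 1)` -/
lemma mass_le_angle {L : ℕ} (hL : 1 ≤ L) {m : ℝ} (hm0 : 0 < m)
    (hm : 2 * Real.cosh m - 2 = N990.lam0 L) : m ≤ Real.pi / (2 * L + 1) := by
  have hp := Real.pi_pos
  have hθ : 0 < Real.pi / (2 * (L : ℝ) + 1) := by positivity
  rw [← abs_of_pos hm0, ← abs_of_pos hθ, ← Real.cosh_le_cosh]
  have h1 := Real.one_sub_sq_div_two_le_cos (x := Real.pi / (2 * (L : ℝ) + 1))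
  have h2 : 1 + (Real.pi / (2 * (L : ℝ) + 1)) ^ 2 / 2 ≤ Real.cosh (Real.pi / (2 * L + 1)) := by
    have h3 := Real.cosh_two_mul (Real.pi / (2 * (L : ℝ) + 1) / 2)
    rw [mul_div_cancel₀ _ (two_ne_zero), Real.cosh_sq] at h3
    have h4 : Real.pi / (2 * (L : ℝ) + 1) / 2 ≤ Real.sinh (Real.pi / (2 * (L : ℝ) + 1) / 2) :=
      Real.self_le_sinh_iff.2 (by positivity)
    have h5 : (Real.pi / (2 * (L : ℝ) + 1) / 2) ^ 2 ≤
        Real.sinh (Real.pi / (2 * (L : ℝ) + 1) / 2) ^ 2 :=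
      pow_le_pow_left₀ (by positivity) h4 2
    rw [h3]
    linarith
  unfold N990.lam0 at hm
  linarith

end

end Pool.Agent.N986.SL
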