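import Pool.Agent.N986.U.Core

/-!
# Lattice gauge theory in a slab: the mass gap, uniformly in the lattice spacing
-/

set_option autoImplicit false
set_option linter.unusedSectionVars false
set_option linter.unusedVariables false
set_option linter.style.haveILetI false

open MeasureTheory Matrix Function Filter Topology
open scoped Matrix.Norms.Frobenius ENNReal

namespace Pool.Agent.N986.SL

open Pool.Agent.N986.PB Pool.Agent.N990.Mach

noncomputable section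

variable {N D : ℕ} {G : Subgroup (N990.UU N)} [MeasurableSpace G] [BorelSpace G]

/-- the influence bound, uniformly in the thickness -/
def InflU (D : ℕ) (μ : Measure G) : Prop :=
  ∀ m : ℝ, 0 ≤ m → m < Real.pi / 2 → ∃ L₁ : ℕ, ∀ᶠ p in FU, ∀ L : ℕ, L₁ ≤ L → (L : ℝ) ≤ p.2 →
    ∃ C : ℝ, 0 < C ∧ AxInfl D L μ chi p.1 (m / (L + 2)) C

/-- the upper bound, uniformly in the thickness -/
def UpU (D : ℕ) (μ : Measure G) : Prop :=
  ∀ ε : ℝ, 0 < ε → ∀ᶠ p in FU, ∀ L : ℕ, 1 ≤ L → (L : ℝ) ≤ p.2 → ∀ m : ℝ, 0 < m →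
    2 * Real.cosh m - 2 = N990.lam0 L → UpB D L μ p.1 ((1 + ε) * m)

lemma AxInfl.mono {L : ℕ} {μ : Measure G} {χ : G → ℝ} {β m m' C : ℝ} (hC : 0 ≤ C) (h : m' ≤ m)
    (hI : AxInfl D L μ χ β m C) : AxInfl D L μ χ β m' C := by
  intro V A r hA f hf hf1 hfA ψ ψ'
  refine (hI V A r hA f hf hf1 hfA ψ ψ').trans (add_le_add le_rfl ?_)
  gcongr

/-- **The mass gap in slabs, uniformly in the lattice spacing.** -/
theorem slabU (hG : IsClosed (G : Set (N990.UU N))) (μ : Measure G) [IsProbabilityMeasure μ]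
    [μ.IsMulLeftInvariant] (hI : InflU D μ) (hU : UpU D μ) {ε : ℝ} (hε : 0 < ε) (hε' : ε < 1) :
    ∃ K : ℕ, ∀ L : ℕ, 1 ≤ L → ∀ m₀ : ℝ, 0 < m₀ → 2 * Real.cosh m₀ - 2 = N990.lam0 L →
      ∀ β : ℝ, K * (L : ℝ) ^ K ≤ β →
      ∃ P : Measure (Link D L → G), Good μ L β ((1 - ε) * m₀) ((1 + ε) * m₀) P := by
  have hp := Real.pi_pos
  obtain ⟨m, hm⟩ : ∃ m, m = (1 - ε / 2) * (Real.pi / 2) := ⟨_, rfl⟩
  have hm0 : 0 < m := by
    rw [hm]
    have : 0 < 1 - ε / 2 := by linarith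
    positivity
  have hm1 : m < Real.pi / 2 := by rw [hm]; nlinarith
  obtain ⟨L₁, h1⟩ := hI m hm0.le hm1
  obtain ⟨L₂, hL₂⟩ := exists_nat_ge (8 / ε)
  have h2 := hU ε hε
  obtain ⟨n, hn⟩ := fu_iff.1 (h1.and h2)
  -- small thickness
  have h3 : ∀ L : ℕ, ∃ b : ℝ, 1 ≤ L → ∀ m₀ : ℝ, 0 < m₀ → 2 * Real.cosh m₀ - 2 = N990.lam0 L →
      ∀ β ≥ b, ∃ P : Measure (Link D L → G), Good μ L β ((1 - ε) * m₀) ((1 + ε) * m₀) P := by
    intro L
    by_cases h : 1 ≤ L ∧ ∃ m₀ : ℝ, 0 < m₀ ∧ 2 * Real.cosh m₀ - 2 = N990.lam0 L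
    · obtain ⟨hL, m₀, hm₀, hc⟩ := h
      obtain ⟨b, hb⟩ := slab_one (D := D) hG μ hL hm₀ hc (ε := ε * m₀) (by positivity) (by nlinarith)
      refine ⟨b, fun _ m₁ hm₁ hc₁ β hβ => ?_⟩
      have e : m₁ = m₀ := by
        have : Real.cosh m₁ = Real.cosh m₀ := by linarith
        have h4 := le_antisymm (Real.cosh_le_cosh.1 this.le) (Real.cosh_le_cosh.1 this.ge)
        rwa [abs_of_pos hm₀, abs_of_pos hm₁] at h4
      have e1 : (1 - ε) * m₁ = m₀ - ε * m₀ := by rw [e]; ring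
      have e2 : (1 + ε) * m₁ = m₀ + ε * m₀ := by rw [e]; ring
      rw [e1, e2]
      exact hb β hβ
    · refine ⟨0, fun hL m₀ hm₀ hc => absurd ⟨hL, m₀, hm₀, hc⟩ h⟩
  choose b hb using h3
  obtain ⟨B, hB⟩ := ((Finset.range (L₁ + L₂)).image b).bddAbove
  obtain ⟨K₁, hK₁⟩ := exists_nat_ge B
  refine ⟨max (n + 1) K₁, fun L hL m₀ hm₀ hc β hβ => ?_⟩
  have hL' : (1 : ℝ) ≤ L := by exact_mod_cast hL
  have hK0 : ((max (n + 1) K₁ : ℕ) : ℝ) ≤ max (n + 1) K₁ * (L : ℝ) ^ max (n + 1) K₁ := by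
    refine le_trans (le_of_eq (by push_cast; ring)) (mul_le_mul_of_nonneg_left
      (one_le_pow₀ hL') (Nat.cast_nonneg _))
  by_cases hLL : L < L₁ + L₂
  · refine hb L hL m₀ hm₀ hc β ?_
    have h5 : b L ≤ B := hB (Finset.mem_coe.2 (Finset.mem_image_of_mem _ (Finset.mem_range.2 hLL)))
    have h6 : ((K₁ : ℕ) : ℝ) ≤ ((max (n + 1) K₁ : ℕ) : ℝ) := by exact_mod_cast le_max_right _ _
    push_cast at hβ hK0 h6
    linarith
  · rw [not_lt] at hLL
    have hU1 : ((β, (L : ℝ)) : ℝ × ℝ) ∈ Un n := by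
      have h6 : (((n + 1 : ℕ) : ℕ) : ℝ) ≤ ((max (n + 1) K₁ : ℕ) : ℝ) := by
        exact_mod_cast le_max_left _ _
      refine ⟨?_, hL', ?_⟩
      · show (n : ℝ) + 1 ≤ β
        push_cast at hβ hK0 h6
        linarith
      · show (L : ℝ) ^ (n + 1) ≤ β
        refine le_trans ?_ hβ
        have h7 : (L : ℝ) ^ (n + 1) ≤ (L : ℝ) ^ max (n + 1) K₁ :=
          pow_le_pow_right₀ hL' (le_max_left _ _)
        have h8 : (1 : ℝ) ≤ ((max (n + 1) K₁ : ℕ) : ℝ) := by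
          have : 1 ≤ max (n + 1) K₁ := le_max_of_le_left (by omega)
          exact_mod_cast this
        have h9 : 0 ≤ (L : ℝ) ^ max (n + 1) K₁ := by positivity
        push_cast at h8 ⊢
        nlinarith
    obtain ⟨h7, h8⟩ := hn _ hU1
    obtain ⟨C, hC, hI1⟩ := h7 L (by omega) le_rfl
    have hU2 := h8 L hL le_rfl m₀ hm₀ hc
    have hle : (1 - ε) * m₀ ≤ m / (L + 2) := by
      have h9 := mass_le_angle hL hm₀ hc
      have h10 : (8 / ε : ℝ) ≤ L := hL₂.trans (by exact_mod_cast (by omega : L₂ ≤ L))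
      rw [div_le_iff₀ hε] at h10
      rw [le_div_iff₀ (by positivity)]
      have h11 : (1 - ε) * m₀ * (L + 2) ≤ (1 - ε) * (Real.pi / (2 * L + 1)) * (L + 2) := by
        have : 0 ≤ 1 - ε := by linarith
        gcongr
      refine h11.trans ?_
      rw [hm, mul_div_assoc', div_mul_eq_mul_div, div_le_iff₀ (by positivity)]
      have h12 : (1 - ε) * (L + 2) ≤ (1 - ε / 2) * (L + 1 / 2) := by nlinarith
      nlinarith
    exact slab_core hG μ (AxInfl.mono hC.le hle hI1) hC (by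
      have : 0 < 1 - ε := by linarith
      positivity) hU2

end

end Pool.Agent.N986.SL
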