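import Mathlib

/-!
# The mass of the quadratic theory in a slab
-/

set_option autoImplicit false

open Filter Topology

namespace Pool.Agent.N986.SL

noncomputable section

/-- the mass of the quadratic theory in the slab with `L` layers -/
def mass (L : ℕ) : ℝ := Real.arcosh (2 - Real.cos (Real.pi / (2 * L + 1)))

/-- the angle -/
def ang (L : ℕ) : ℝ := Real.pi / (2 * L + 1)

lemma ang_pos (L : ℕ) : 0 < ang L := by
  unfold ang
  have := Real.pi_pos
  positivity

lemma cosh_mass (L : ℕ) : Real.cosh (mass L) = 2 - Real.cos (Real.pi / (2 * L + 1)) :=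
  Real.cosh_arcosh (by
    have := Real.cos_le_one (Real.pi / (2 * L + 1))
    linarith)

lemma mass_pos {L : ℕ} (hL : 1 ≤ L) : 0 < mass L := by
  have hp := Real.pi_pos
  have hL' : (1 : ℝ) ≤ L := by exact_mod_cast hL
  have h1 : Real.cos (Real.pi / (2 * L + 1)) < 1 := by
    have h2 : Real.pi / (2 * (L : ℝ) + 1) ≤ Real.pi := by
      rw [div_le_iff₀ (by positivity)]
      nlinarith
    have h3 := Real.cos_lt_cos_of_nonneg_of_le_pi (x := 0) (y := Real.pi / (2 * (L : ℝ) + 1)) le_rfl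
      h2 (by positivity)
    rwa [Real.cos_zero] at h3
  exact Real.arcosh_pos (by linarith)

lemma mass_nonneg (L : ℕ) : 0 ≤ mass L :=
  Real.arcosh_nonneg (by
    have := Real.cos_le_one (Real.pi / (2 * L + 1))
    linarith)

lemma le_cosh' {x : ℝ} (hx : 0 ≤ x) : 1 + x ^ 2 / 2 ≤ Real.cosh x := by
  have h1 := Real.cosh_two_mul (x / 2)
  rw [mul_div_cancel₀ _ (two_ne_zero), Real.cosh_sq] at h1
  have h2 : x / 2 ≤ Real.sinh (x / 2) := Real.self_le_sinh_iff.2 (by linarith)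
  have h3 : (x / 2) ^ 2 ≤ Real.sinh (x / 2) ^ 2 := pow_le_pow_left₀ (by linarith) h2 2
  rw [h1]
  linarith

lemma mass_le_ang (L : ℕ) : mass L ≤ ang L := by
  have h0 := mass_nonneg L
  have hθ := ang_pos L
  rw [← abs_of_nonneg h0, ← abs_of_pos hθ, ← Real.cosh_le_cosh, cosh_mass]
  have h1 := Real.one_sub_sq_div_two_le_cos (x := ang L)
  have h2 := le_cosh' hθ.le
  unfold ang at *
  linarith

lemma ang_le_mass {L : ℕ} (hL : 2 ≤ L) : ang L * (1 - ang L ^ 2) ≤ mass L := by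
  have hL' : (2 : ℝ) ≤ L := by exact_mod_cast hL
  have hθ := ang_pos L
  have hθ1 : ang L ≤ 1 := by
    unfold ang
    rw [div_le_one (by positivity)]
    have := Real.pi_lt_four
    linarith
  have h0 := mass_nonneg L
  have h1 := Real.cos_bound (x := ang L) (by rw [abs_of_pos hθ]; exact hθ1)
  rw [abs_of_pos hθ, abs_le] at h1
  have h2 := Real.one_sub_sq_div_two_le_cos (x := ang L)
  obtain ⟨x, hx⟩ : ∃ x, x = 1 - Real.cos (ang L) := ⟨_, rfl⟩
  have hx1 : ang L ^ 2 / 2 - ang L ^ 4 * (5 / 96) ≤ x := by rw [hx]; linarith [h1.2]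
  have hx2 : x ≤ ang L ^ 2 / 2 := by rw [hx]; linarith
  have hx0 : 0 ≤ x := by
    rw [hx]
    have := Real.cos_le_one (ang L)
    linarith
  have h3 : 1 + x ≤ Real.exp (mass L ^ 2 / 2) := by
    have h4 := Real.cosh_le_exp_half_sq (mass L)
    rw [cosh_mass] at h4
    unfold ang at hx
    rw [hx]
    linarith
  -- `m ^ 2 ≥ 2 x (1 - x)`
  have h4 : 2 * x * (1 - x) ≤ mass L ^ 2 := by
    have h5 : Real.log (1 + x) ≤ mass L ^ 2 / 2 := by
      rw [Real.log_le_iff_le_exp (by linarith)]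
      exact h3
    have h6 := Real.one_sub_inv_le_log_of_pos (x := 1 + x) (by linarith)
    have h7 : x * (1 - x) ≤ 1 - (1 + x)⁻¹ := by
      have h8 : 1 - (1 + x)⁻¹ = x / (1 + x) := by
        field_simp
        ring
      rw [h8, le_div_iff₀ (by linarith)]
      nlinarith [mul_nonneg (mul_nonneg hx0 hx0) hx0]
    linarith
  have h5 : (ang L * (1 - ang L ^ 2)) ^ 2 ≤ mass L ^ 2 := by
    refine le_trans ?_ h4
    obtain ⟨t, ht⟩ : ∃ t, t = ang L ^ 2 := ⟨_, rfl⟩
    have ht0 : 0 ≤ t := by rw [ht]; positivity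
    have ht1 : t ≤ 1 := by
      rw [ht]
      exact pow_le_one₀ hθ.le hθ1
    have e1 : (ang L * (1 - ang L ^ 2)) ^ 2 = t * (1 - t) ^ 2 := by rw [ht]; ring
    have e2 : ang L ^ 4 = t ^ 2 := by rw [ht]; ring
    rw [e1]
    rw [e2, ← ht] at hx1
    rw [← ht] at hx2
    have h6 : 2 * x * (1 - x) ≥ (t - 5 / 48 * t ^ 2) * (1 - t / 2) := by
      have a1 : t - 5 / 48 * t ^ 2 ≤ 2 * x := by linarith
      have a2 : 1 - t / 2 ≤ 1 - x := by linarith
      have a3 : 0 ≤ 1 - t / 2 := by linarith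
      have a4 : 0 ≤ 2 * x := by linarith
      calc (t - 5 / 48 * t ^ 2) * (1 - t / 2) ≤ 2 * x * (1 - t / 2) :=
            mul_le_mul_of_nonneg_right a1 a3
        _ ≤ 2 * x * (1 - x) := mul_le_mul_of_nonneg_left a2 a4
    have h7 : t * (1 - t) ^ 2 ≤ (t - 5 / 48 * t ^ 2) * (1 - t / 2) := by
      nlinarith [mul_nonneg ht0 (sub_nonneg.2 ht1), mul_nonneg (mul_nonneg ht0 ht0) (sub_nonneg.2 ht1)]
    linarith
  exact le_of_sq_le_sq' h5 h0
where
  le_of_sq_le_sq' {a b : ℝ} (h : a ^ 2 ≤ b ^ 2) (hb : 0 ≤ b) : a ≤ b := (le_abs_self a).trans (abs_le_of_sq_le_sq h hb)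

/-- the mass in units of the inverse thickness of the slab converges -/
theorem tendsto_mass : Tendsto (fun L : ℕ => (L : ℝ) * mass L) atTop (𝓝 (Real.pi / 2)) := by
  have h1 : Tendsto (fun L : ℕ => (L : ℝ) * ang L) atTop (𝓝 (Real.pi / 2)) := by
    have h2 : Tendsto (fun L : ℕ => Real.pi / 2 - Real.pi / 2 * (2 * (L : ℝ) + 1)⁻¹) atTop
        (𝓝 (Real.pi / 2 - Real.pi / 2 * 0)) := by
      refine tendsto_const_nhds.sub (tendsto_const_nhds.mul (tendsto_inv_atTop_zero.comp ?_))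
      exact tendsto_atTop_add_const_right _ _
        (tendsto_natCast_atTop_atTop.const_mul_atTop (by norm_num))
    rw [mul_zero, sub_zero] at h2
    refine h2.congr fun L => ?_
    unfold ang
    have : (0 : ℝ) < 2 * L + 1 := by positivity
    field_simp
    ring
  have h3 : Tendsto ang atTop (𝓝 0) := by
    unfold ang
    refine Tendsto.div_atTop tendsto_const_nhds ?_
    exact tendsto_atTop_add_const_right _ _
      (tendsto_natCast_atTop_atTop.const_mul_atTop (by norm_num))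
  have h4 : Tendsto (fun L : ℕ => (L : ℝ) * ang L * (1 - ang L ^ 2)) atTop
      (𝓝 (Real.pi / 2 * (1 - 0 ^ 2))) := h1.mul (tendsto_const_nhds.sub (h3.pow 2))
  rw [show Real.pi / 2 * (1 - 0 ^ 2) = Real.pi / 2 by ring] at h4
  refine tendsto_of_tendsto_of_tendsto_of_le_of_le' h4 h1 ?_ ?_
  · filter_upwards [eventually_ge_atTop 2] with L hL
    rw [mul_assoc]
    exact mul_le_mul_of_nonneg_left (ang_le_mass hL) (Nat.cast_nonneg _)
  · exact Eventually.of_forall fun L => mul_le_mul_of_nonneg_left (mass_le_ang L) (Nat.cast_nonneg _)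

end

end Pool.Agent.N986.SL
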