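import Pool.Agent.N986.U.StepU
import Pool.Agent.N990.U.ChainU

/-!
# The uniform machine: large spins are unlikely
-/

set_option autoImplicit false
set_option linter.unusedSectionVars false
set_option linter.unusedVariables false

open MeasureTheory Finset Function Filter Topology
open scoped ENNReal Classical
open Pool.Agent.N986.PB

namespace Pool.Agent.N990.Mach

noncomputable section

section core

variable {ι τ K Y V : Type*} [Group K] [MeasurableSpace K]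
    [NormedAddCommGroup Y] [NormedSpace ℝ Y] [NormedAddCommGroup V] [NormedSpace ℝ V]
    {ν : Measure K} {c : Cst}

/-- one step, explicit form -/
theorem small1_core [IsProbabilityMeasure ν] (S : Sys ι τ K Y V ν c) {β e0 e1 η : ℝ}
    (hβ1 : 1 ≤ β)
    (a1 : 4 * (c.C0 * (c.Cg * 2 ^ c.Dg)) / c.c0 * β ^ (η + 2 * e0) ≤ β ^ (2 * e1))
    (a2 : 4 / c.c0 * β ^ (η + e0) ≤ β ^ (2 * e1)) (a3 : 4 / c.c0 * β ^ e1 ≤ β ^ (2 * e1))
    (a4 : Sys.kap c β ≤ β ^ e0) {A : Finset ι} (hA : A ⊆ S.Lam) (hcard : (A.card : ℝ) ≤ β ^ η)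
    (ψ : ι → K) (hψ : ∀ y ∈ S.bd A, S.nrm (ψ y) ≤ β ^ (-1 / 2 + e0)) :
    ev ν (S.w β) A (ind fun φ => ∃ a ∈ A, β ^ (-1 / 2 + e1) < S.nrm (φ a)) ψ ≤
      ENNReal.ofReal (Real.exp (-β ^ e1)) := by
  have hβ0 : 0 < β := by linarith
  have hc0 := c.hc0
  have hC0 := c.hC0
  have hCg := c.hCg
  have mE : Measurable (ind fun φ : ι → K => ∃ a ∈ A, β ^ (-1 / 2 + e1) < S.nrm (φ a)) := by
    refine ind_meas ?_
    have : {φ : ι → K | ∃ a ∈ A, β ^ (-1 / 2 + e1) < S.nrm (φ a)} =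
        ⋃ a ∈ A, {φ : ι → K | β ^ (-1 / 2 + e1) < S.nrm (φ a)} := by
      ext φ; simp
    rw [this]
    exact Finset.measurableSet_biUnion _ fun a _ =>
      measurableSet_lt measurable_const (S.nrm_meas.comp (measurable_pi_apply a))
  refine (S.step hβ1 hA ψ _ mE (c.c0 * β ^ (2 * e1)) ?_).trans
    (ENNReal.ofReal_le_ofReal (Real.exp_le_exp.2 ?_))
  · rintro φ - ⟨a, ha, hlt⟩
    have h1 : (β ^ (-1 / 2 + e1)) ^ 2 ≤ ∑ y ∈ A, S.nrm (φ y) ^ 2 := by
      refine le_trans (pow_le_pow_left₀ (Real.rpow_nonneg hβ0.le _) hlt.le 2) ?_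
      exact Finset.single_le_sum (f := fun y => S.nrm (φ y) ^ 2) (fun y _ => sq_nonneg _) ha
    have h2 : (β ^ (-1 / 2 + e1)) ^ 2 = β⁻¹ * β ^ (2 * e1) := by
      rw [← Real.rpow_natCast, ← Real.rpow_mul hβ0.le, ← Real.rpow_neg_one, ← Real.rpow_add hβ0]
      congr 1
      push_cast
      ring
    rw [h2] at h1
    calc c.c0 * β ^ (2 * e1) = β * (c.c0 * (β⁻¹ * β ^ (2 * e1))) := by field_simp
      _ ≤ _ := by gcongr
  · have h1 : ∑ y ∈ S.bd A, S.nrm (ψ y) ^ 2 ≤ A.card * (c.Cg * 2 ^ c.Dg) * (β⁻¹ * β ^ (2 * e0)) := by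
      have h2 : (β ^ (-1 / 2 + e0)) ^ 2 = β⁻¹ * β ^ (2 * e0) := by
        rw [← Real.rpow_natCast, ← Real.rpow_mul hβ0.le, ← Real.rpow_neg_one, ← Real.rpow_add hβ0]
        congr 1
        push_cast
        ring
      rw [← h2]
      calc ∑ y ∈ S.bd A, S.nrm (ψ y) ^ 2 ≤ ∑ y ∈ S.bd A, (β ^ (-1 / 2 + e0)) ^ 2 :=
            Finset.sum_le_sum fun y hy => pow_le_pow_left₀ (S.nrm_nonneg _) (hψ y hy) 2
        _ = (S.bd A).card * (β ^ (-1 / 2 + e0)) ^ 2 := by rw [Finset.sum_const, nsmul_eq_mul]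
        _ ≤ _ := mul_le_mul_of_nonneg_right (S.card_bd A) (sq_nonneg _)
    have hx0 : 0 ≤ β ^ (2 * e0) := Real.rpow_nonneg hβ0.le _
    have h3 : β * c.C0 * ∑ y ∈ S.bd A, S.nrm (ψ y) ^ 2 ≤
        c.C0 * (c.Cg * 2 ^ c.Dg) * β ^ (η + 2 * e0) := by
      calc β * c.C0 * ∑ y ∈ S.bd A, S.nrm (ψ y) ^ 2
          ≤ β * c.C0 * (A.card * (c.Cg * 2 ^ c.Dg) * (β⁻¹ * β ^ (2 * e0))) := by gcongr
        _ = A.card * (c.C0 * (c.Cg * 2 ^ c.Dg) * β ^ (2 * e0)) := by field_simp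
        _ ≤ β ^ η * (c.C0 * (c.Cg * 2 ^ c.Dg) * β ^ (2 * e0)) := by gcongr
        _ = _ := by rw [Real.rpow_add hβ0]; ring
    have h4 : A.card * Sys.kap c β ≤ β ^ (η + e0) := by
      calc (A.card : ℝ) * Sys.kap c β ≤ A.card * β ^ e0 := by gcongr
        _ ≤ β ^ η * β ^ e0 := by gcongr
        _ = _ := by rw [Real.rpow_add hβ0]
    have g1 : c.C0 * (c.Cg * 2 ^ c.Dg) * β ^ (η + 2 * e0) ≤ c.c0 / 4 * β ^ (2 * e1) := by
      have := mul_le_mul_of_nonneg_left a1 (by positivity : 0 ≤ c.c0 / 4)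
      refine le_trans (le_of_eq ?_) this
      field_simp
    have g2 : β ^ (η + e0) ≤ c.c0 / 4 * β ^ (2 * e1) := by
      have := mul_le_mul_of_nonneg_left a2 (by positivity : 0 ≤ c.c0 / 4)
      refine le_trans (le_of_eq ?_) this
      field_simp
    have g3 : β ^ e1 ≤ c.c0 / 4 * β ^ (2 * e1) := by
      have := mul_le_mul_of_nonneg_left a3 (by positivity : 0 ≤ c.c0 / 4)
      refine le_trans (le_of_eq ?_) this
      field_simp
    have g4 : 0 ≤ β ^ (2 * e1) := Real.rpow_nonneg hβ0.le _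
    nlinarith

end core

/-- **One step, uniform in the constants.** -/
theorem small1U (Dg : ℕ) : Small1U Dg := by
  intro e0 e1 he0 he1
  obtain ⟨η, hη⟩ : ∃ η, η = e1 - e0 := ⟨_, rfl⟩
  have hη0 : 0 < η := by linarith
  have A1 := fu_rpow (a := 2 * e1) (b := η + 2 * e0) (4 * 2 ^ Dg) 3 (by linarith)
  have A2 := fu_rpow (a := 2 * e1) (b := η + e0) 4 1 (by linarith)
  have A3 := fu_rpow (a := 2 * e1) (b := e1) 4 1 (by linarith)
  have A4 := fu_rpow (a := e0) (b := 0) 4 1 (by linarith)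
  have A5 := fu_log (a := e0) 1 1 he0
  refine ⟨η, hη0, ?_⟩
  filter_upwards [A1, A2, A3, A4, A5, fu_ge 1, fu_one] with p A1 A2 A3 A4 A5 hβ1 hX
  intro K Y V _ _ _ _ _ _ _ ν _ _ c hD hB ι τ S A hA hcard ψ hψ
  have hc0 := c.hc0
  have hC0 := c.hC0
  have hCg := c.hCg
  have hX0 : 0 < p.2 := by linarith
  have hβ0 : 0 < p.1 := by linarith
  have hi : 1 / c.c0 ≤ p.2 := by
    rw [div_le_iff₀ hc0, mul_comm]
    exact hB.c0
  refine small1_core S hβ1 (A1 _ ?_) (A2 _ ?_) (A3 _ ?_) ?_ hA hcard ψ hψ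
  · rw [hD]
    calc 4 * (c.C0 * (c.Cg * 2 ^ Dg)) / c.c0 = 4 * 2 ^ Dg * (c.C0 * c.Cg * (1 / c.c0)) := by
          field_simp
      _ ≤ 4 * 2 ^ Dg * (p.2 * p.2 * p.2) := by
          have := hB.C0
          have := hB.Cg
          gcongr
      _ = _ := by ring
  · rw [pow_one]
    calc 4 / c.c0 = 4 * (1 / c.c0) := by ring
      _ ≤ _ := mul_le_mul_of_nonneg_left hi (by norm_num)
  · rw [pow_one]
    calc 4 / c.c0 = 4 * (1 / c.c0) := by ring
      _ ≤ _ := mul_le_mul_of_nonneg_left hi (by norm_num)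
  · have h1 := A4 (4 * p.2) (by rw [pow_one])
    have h2 := A5 p.2 (by rw [pow_one, one_mul])
    rw [Real.rpow_zero, mul_one] at h1
    have h3 := Real.log_nonneg hβ1
    have h4 := mul_le_mul_of_nonneg_right hB.nv h3
    have h5 := hB.C0
    have h6 := hB.cv
    unfold Sys.kap
    nlinarith

/-- the entropy per site is small -/
lemma kapU_le (Dg : ℕ) {a : ℝ} (ha : 0 < a) : ∀ᶠ p in FU, ∀ c : Cst, c.Dg = Dg → Bd c p.2 →
    Sys.kapU c p.1 ≤ p.1 ^ a := by
  have A4 := fu_rpow (a := a) (b := 0) (2 * 2 ^ Dg + 2) 3 ha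
  have A5 := fu_log (a := a) 1 1 ha
  filter_upwards [A4, A5, fu_ge 1, fu_one] with p A4 A5 hβ1 hX
  intro c hD hB
  have hC0 := c.hC0
  have hCg := c.hCg
  have hCn := c.hCn
  have h1 := A4 _ le_rfl
  have h2 := A5 p.2 (by rw [pow_one, one_mul])
  rw [Real.rpow_zero, mul_one] at h1
  have h3 := Real.log_nonneg hβ1
  have h4 := mul_le_mul_of_nonneg_right hB.nv h3
  have h6 := hB.cv
  have h7 : c.C0 * c.Cn * (c.Cg * 2 ^ Dg) ≤ p.2 * p.2 * (p.2 * 2 ^ Dg) := by
    have := hB.C0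
    have := hB.Cn
    have := hB.Cg
    gcongr
  have h8 : p.2 ≤ p.2 ^ 3 := by
    calc p.2 = p.2 ^ 1 := (pow_one _).symm
      _ ≤ _ := pow_le_pow_right₀ hX (by norm_num)
  unfold Sys.kapU
  rw [hD]
  nlinarith

section core2

variable {ι τ K Y V : Type*} [Group K] [MeasurableSpace K]
    [NormedAddCommGroup Y] [NormedSpace ℝ Y] [NormedAddCommGroup V] [NormedSpace ℝ V]
    {ν : Measure K} {c : Cst}

/-- the energy touching the ball -/
def Sys.Er (S : Sys ι τ K Y V ν c) (A : Finset ι) (z : ι) (r : ℕ) (φ : ι → K) : ℝ :=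
  S.HA (S.Bl A z r) φ

lemma Er_mono {S : Sys ι τ K Y V ν c} {Cc : ℝ} (hcut : Cut S Cc) (A : Finset ι) (z : ι) (r : ℕ)
    (φ : ι → K) : S.Er A z r φ ≤ S.Er A z (r + 1) φ := by
  unfold Sys.Er Sys.HA
  refine Finset.sum_le_sum_of_subset_of_nonneg (fun t ht => ?_) fun t ht _ =>
    hcut.nn t (S.tch_sub _ ht) φ
  obtain ⟨h1, h2⟩ := Finset.mem_filter.1 ht
  exact Finset.mem_filter.2 ⟨h1, fun h3 => h2 (Finset.disjoint_of_subset_right (S.Bl_mono A z r) h3)⟩

lemma Er_le (S : Sys ι τ K Y V ν c) {A : Finset ι} (hA : A ⊆ S.Lam) (z : ι) (r : ℕ)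
    (φ : ι → K) : S.Er A z r φ ≤ c.C0 * (c.Cg * ((r : ℝ) + 2) ^ c.Dg * c.nm ^ 2) := by
  have hC0 := c.hC0
  refine (S.upper _ ((Finset.filter_subset _ _).trans hA) φ).trans
    (mul_le_mul_of_nonneg_left ?_ (by linarith))
  have hd : ∀ y ∈ cl S.T S.sp (S.Bl A z r) ∪ S.Bl A z r, S.d z y ≤ r + 1 := by
    intro y hy
    rcases Finset.mem_union.1 hy with hy | hy
    · obtain ⟨x, hx, hxy⟩ := S.mem_cl hy
      have h1 := (Finset.mem_filter.1 hx).2
      have h2 := S.dtri z x y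
      omega
    · have h1 := (Finset.mem_filter.1 hy).2
      omega
  calc ∑ y ∈ cl S.T S.sp (S.Bl A z r) ∪ S.Bl A z r, S.nrm (φ y) ^ 2
      ≤ ∑ y ∈ cl S.T S.sp (S.Bl A z r) ∪ S.Bl A z r, c.nm ^ 2 :=
        Finset.sum_le_sum fun y _ => pow_le_pow_left₀ (S.nrm_nonneg _) (S.nrm_le _) 2
    _ = (cl S.T S.sp (S.Bl A z r) ∪ S.Bl A z r).card * c.nm ^ 2 := by
        rw [Finset.sum_const, nsmul_eq_mul]
    _ ≤ _ := by
        refine mul_le_mul_of_nonneg_right ?_ (sq_nonneg _)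
        have h1 := S.growth (cl S.T S.sp (S.Bl A z r) ∪ S.Bl A z r) z (r + 1)
        rw [Finset.filter_true_of_mem hd] at h1
        refine h1.trans (le_of_eq ?_)
        push_cast
        ring_nf

/-- hole filling, explicit form -/
theorem small2_core [IsProbabilityMeasure ν] [ν.IsMulLeftInvariant] [MeasurableMul K]
    {S : Sys ι τ K Y V ν c} {Cc : ℝ} (hCc : 1 ≤ Cc) (hcut : Cut S Cc) {β e0 e1 a k : ℝ}
    (ha : a = 1 / (8 * Cc)) (hk : k = 3 / Real.log (1 + a))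
    (hβ2 : 2 < β) (he0 : 0 < e0) (he1 : e0 < e1)
    (a1 : 2 * (c.C0 * c.Cg * c.nm ^ 2) / c.c0 * ((rad k β : ℝ) + 2) ^ c.Dg ≤ β ^ (1 : ℝ))
    (a2 : 16 * (c.C0 * c.Cg) / c.c0 * ((rad k β : ℝ) + 2) ^ c.Dg ≤ β ^ (2 * (e1 - e0)))
    (a3 : 8 * c.Cg / c.c0 * ((rad k β : ℝ) + 2) ^ c.Dg ≤ β ^ (e1 - e0))
    (a4 : Sys.kapU c β ≤ β ^ e0)
    (a5 : 8 / c.c0 * ((rad k β : ℝ) + 2) ^ 1 ≤ β ^ (2 * e1))
    (a6 : 8 / c.c0 * β ^ e1 ≤ β ^ (2 * e1))
    {A : Finset ι} (hA : A ⊆ S.Lam) {z : ι} (hz : z ∈ A) (ψ : ι → K)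
    (hψ : ∀ y, y ∉ A → S.d z y ≤ rad k β → S.nrm (ψ y) ≤ β ^ (-1 / 2 + e0)) :
    ev ν (S.w β) A (ind fun φ => β ^ (-1 / 2 + e1) < S.nrm (φ z)) ψ ≤
      ENNReal.ofReal (Real.exp (-β ^ e1)) := by
  have hc0 := c.hc0
  have hC0 := c.hC0
  have hCg := c.hCg
  have hnm := c.hnm
  have hβ1 : 1 ≤ β := by linarith
  have hβ0 : 0 < β := by linarith
  have ha0 : 0 < a := by rw [ha]; positivity
  have ha1 : a ≤ 1 / 8 := by
    rw [ha]
    exact one_div_le_one_div_of_le (by norm_num) (by linarith)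
  have hla : 0 < Real.log (1 + a) := Real.log_pos (by linarith)
  have hk0 : 0 < k := by rw [hk]; positivity
  have hw : Good ν (S.w β) := S.good (IsProbabilityMeasure.ne_zero ν) β
  obtain ⟨R, hR⟩ : ∃ R, R = rad k β := ⟨_, rfl⟩
  rw [← hR] at a1 a2 a3 a5 hψ
  have hlog : 0 < Real.log β := Real.log_pos (by linarith)
  have hR1 : 1 ≤ R := by
    rw [hR]
    exact Nat.one_le_iff_ne_zero.2 (Nat.ceil_pos.2 (mul_pos hk0 hlog)).ne'
  obtain ⟨n, hn⟩ : ∃ n, n = R - 1 := ⟨_, rfl⟩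
  have hnR : R = n + 1 := by omega
  have hsq : ∀ e : ℝ, (β ^ (-1 / 2 + e)) ^ 2 = β⁻¹ * β ^ (2 * e) := by
    intro e
    rw [← Real.rpow_natCast, ← Real.rpow_mul hβ0.le, ← Real.rpow_neg_one, ← Real.rpow_add hβ0]
    congr 1
    push_cast
    ring
  obtain ⟨x, hx⟩ : ∃ x, x = c.c0 * (β⁻¹ * β ^ (2 * e1)) := ⟨_, rfl⟩
  have hβx : β * x = c.c0 * β ^ (2 * e1) := by rw [hx]; field_simp
  -- the events
  obtain ⟨Ev, hEv⟩ : ∃ Ev : ℕ → (ι → K) → Prop, Ev = fun r φ =>
    x ≤ S.Er A z (r + 1) φ ∧ S.Er A z (r + 1) φ - S.Er A z r φ ≤ a * S.Er A z (r + 1) φ :=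
      ⟨_, rfl⟩
  have mEr : ∀ r, Measurable (S.Er A z r) := fun r => S.HA_meas _
  have mEv : ∀ r, Measurable (ind (Ev r)) := fun r => by
    rw [hEv]
    exact ind_meas ((measurableSet_le measurable_const (mEr (r + 1))).inter
      (measurableSet_le ((mEr (r + 1)).sub (mEr r)) ((mEr (r + 1)).const_mul a)))
  -- the probability of the events
  obtain ⟨Q, hQ⟩ : ∃ Q : ℝ, Q = c.Cg * ((R : ℝ) + 2) ^ c.Dg := ⟨_, rfl⟩
  have hQ0 : 0 ≤ Q := by rw [hQ]; positivity
  obtain ⟨X, hX⟩ : ∃ X : ℝ, X = -(3 / 4 * (c.c0 * β ^ (2 * e1))) +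
      2 * (c.C0 * (Q * β ^ (2 * e0))) + Q * β ^ e0 := ⟨_, rfl⟩
  have key : ∀ r < n, ∀ χ : ι → K, (∀ i ∉ A, χ i = ψ i) →
      ev ν (S.w β) (S.Bl A z (r + 1)) (ind (Ev r)) χ ≤ ENNReal.ofReal (Real.exp X) := by
    intro r hr χ hχ
    have hBA : S.Bl A z (r + 1) ⊆ A := Finset.filter_subset _ _
    -- the frozen spins
    have hfr : ∑ y ∈ (S.bd (S.Bl A z (r + 1))).filter (fun y => y ∉ A), S.nrm (χ y) ^ 2 ≤
        Q * (β⁻¹ * β ^ (2 * e0)) := by
      have hd : ∀ y ∈ S.bd (S.Bl A z (r + 1)), S.d z y ≤ r + 2 := by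
        intro y hy
        obtain ⟨x, hx, hxy⟩ := S.mem_cl (Finset.mem_sdiff.1 hy).1
        have h1 := (Finset.mem_filter.1 hx).2
        have h2 := S.dtri z x y
        omega
      calc ∑ y ∈ (S.bd (S.Bl A z (r + 1))).filter (fun y => y ∉ A), S.nrm (χ y) ^ 2
          ≤ ∑ y ∈ (S.bd (S.Bl A z (r + 1))).filter (fun y => y ∉ A), (β ^ (-1 / 2 + e0)) ^ 2 := by
            refine Finset.sum_le_sum fun y hy => ?_
            obtain ⟨h3, h4⟩ := Finset.mem_filter.1 hy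
            rw [hχ y h4]
            exact pow_le_pow_left₀ (S.nrm_nonneg _)
              (hψ y h4 ((hd y h3).trans (by omega))) 2
        _ = ((S.bd (S.Bl A z (r + 1))).filter (fun y => y ∉ A)).card * (β⁻¹ * β ^ (2 * e0)) := by
            rw [Finset.sum_const, nsmul_eq_mul, hsq]
        _ ≤ Q * (β⁻¹ * β ^ (2 * e0)) := by
            refine mul_le_mul_of_nonneg_right ?_
              (mul_nonneg (inv_nonneg.2 hβ0.le) (Real.rpow_nonneg hβ0.le _))
            have h5 := S.growth (S.bd (S.Bl A z (r + 1))) z (r + 2)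
            have h6 : (((S.bd (S.Bl A z (r + 1))).filter (fun y => y ∉ A)).card : ℝ) ≤
                ((S.bd (S.Bl A z (r + 1))).filter fun y => S.d z y ≤ r + 2).card := by
              exact_mod_cast Finset.card_le_card fun y hy => by
                obtain ⟨h3, h4⟩ := Finset.mem_filter.1 hy
                exact Finset.mem_filter.2 ⟨h3, hd y h3⟩
            refine h6.trans (h5.trans ?_)
            rw [hQ]
            have h7 : (((r + 2 : ℕ) : ℝ) + 1) ≤ (R : ℝ) + 2 := by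
              have : ((r + 2 : ℕ) : ℝ) ≤ R := by exact_mod_cast (by omega : r + 2 ≤ R)
              linarith
            gcongr
    obtain ⟨Fr, hFr⟩ : ∃ Fr, Fr =
      ∑ y ∈ (S.bd (S.Bl A z (r + 1))).filter (fun y => y ∉ A), S.nrm (χ y) ^ 2 := ⟨_, rfl⟩
    rw [← hFr] at hfr
    refine (Sys.stepU hcut hβ1 (S.Bl A z (r + 1)) χ _ (mEv r)
      (β * (3 / 4 * x - 2 * (c.C0 * Fr))) ?_).trans
      (ENNReal.ofReal_le_ofReal (Real.exp_le_exp.2 ?_))
    · intro φ hφ hE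
      rw [hEv] at hE
      obtain ⟨h1, h2⟩ := hE
      obtain ⟨φ', h3, h4⟩ := hcut.cut A hA z r φ
      refine ⟨φ', fun i hi => (h3 i hi).trans (hφ i hi), ?_⟩
      refine mul_le_mul_of_nonneg_left ?_ hβ0.le
      have h5 : ∑ y ∈ (S.bd (S.Bl A z (r + 1))).filter (fun y => y ∉ A), S.nrm (φ y) ^ 2 = Fr := by
        rw [hFr]
        refine Finset.sum_congr rfl fun y hy => ?_
        rw [hφ y (Finset.mem_sdiff.1 (Finset.mem_filter.1 hy).1).2]
      rw [h5] at h4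
      have h6 : Cc * (S.Er A z (r + 1) φ - S.Er A z r φ) ≤ 1 / 8 * S.Er A z (r + 1) φ := by
        calc Cc * (S.Er A z (r + 1) φ - S.Er A z r φ) ≤ Cc * (a * S.Er A z (r + 1) φ) :=
              mul_le_mul_of_nonneg_left h2 (by linarith)
          _ = _ := by rw [ha]; field_simp
      show _ ≤ S.Er A z (r + 1) φ - 2 * S.HA (S.Bl A z (r + 1)) φ'
      have h7 : S.HA (S.Bl A z (r + 1)) φ' ≤ 1 / 8 * S.Er A z (r + 1) φ + c.C0 * Fr :=
        h4.trans (add_le_add h6 le_rfl)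
      linarith
    · have h3 : ((S.Bl A z (r + 1)).card : ℝ) * Sys.kapU c β ≤ Q * β ^ e0 := by
        have h5 : ((S.Bl A z (r + 1)).card : ℝ) ≤ Q := by
          refine (S.growth A z (r + 1)).trans ?_
          rw [hQ]
          have : ((r + 1 : ℕ) : ℝ) ≤ R := by exact_mod_cast (by omega : r + 1 ≤ R)
          have h7 : ((r + 1 : ℕ) : ℝ) + 1 ≤ (R : ℝ) + 2 := by linarith
          gcongr
        have h8 : 0 ≤ β ^ e0 := Real.rpow_nonneg hβ0.le _
        exact (mul_le_mul_of_nonneg_left a4 (Nat.cast_nonneg _)).trans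
          (mul_le_mul_of_nonneg_right h5 h8)
      have h4 : β * (2 * (c.C0 * Fr)) ≤ 2 * (c.C0 * (Q * β ^ (2 * e0))) := by
        calc β * (2 * (c.C0 * Fr)) ≤ β * (2 * (c.C0 * (Q * (β⁻¹ * β ^ (2 * e0))))) := by gcongr
          _ = β * β⁻¹ * (2 * (c.C0 * (Q * β ^ (2 * e0)))) := by ring
          _ = _ := by rw [mul_inv_cancel₀ hβ0.ne', one_mul]
      rw [hX, ← hβx]
      linarith
  -- the union bound
  have hun : ∀ φ : ι → K, (∀ i ∉ A, φ i = ψ i) →
      ind (fun φ : ι → K => β ^ (-1 / 2 + e1) < S.nrm (φ z)) φ ≤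
        ∑ r ∈ Finset.range n, ind (Ev r) φ := by
    intro φ hφ
    by_cases hbad : β ^ (-1 / 2 + e1) < S.nrm (φ z)
    · have h1 : ind (fun φ : ι → K => β ^ (-1 / 2 + e1) < S.nrm (φ z)) φ = 1 := if_pos hbad
      rw [h1]
      have h0 : x ≤ S.Er A z 0 φ := by
        refine le_trans ?_ (S.coer (S.Bl A z 0) ((Finset.filter_subset _ _).trans hA) φ)
        rw [hx, ← hsq]
        refine mul_le_mul_of_nonneg_left ?_ hc0.le
        refine le_trans (pow_le_pow_left₀ (Real.rpow_nonneg hβ0.le _) hbad.le 2) ?_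
        exact Finset.single_le_sum (f := fun y => S.nrm (φ y) ^ 2) (fun y _ => sq_nonneg _)
          (Finset.mem_filter.2 ⟨hz, by rw [S.dself]⟩)
      by_contra hno
      have h2 : ∀ r < n, ¬ Ev r φ := by
        intro r hr hE
        refine hno ?_
        have h3 : ind (Ev r) φ = 1 := if_pos hE
        rw [← h3]
        exact Finset.single_le_sum (f := fun r => ind (Ev r) φ) (fun _ _ => zero_le)
          (Finset.mem_range.2 hr)
      -- all radii are large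
      have h3 : ∀ r, x ≤ S.Er A z r φ := by
        intro r
        induction r with
        | zero => exact h0
        | succ r ih => exact ih.trans (Er_mono hcut A z r φ)
      have hx0 : 0 < x := by rw [hx]; positivity
      have h4 : ∀ r < n, (1 + a) * S.Er A z r φ ≤ S.Er A z (r + 1) φ := by
        intro r hr
        have h5 : a * S.Er A z (r + 1) φ ≤ S.Er A z (r + 1) φ - S.Er A z r φ := by
          by_contra hlt
          refine h2 r hr ?_
          rw [hEv]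
          exact ⟨h3 (r + 1), (not_le.1 hlt).le⟩
        have h6 := Er_mono hcut A z r φ
        have h7 := mul_le_mul_of_nonneg_left h6 ha0.le
        linarith
      have h5 : ∀ r ≤ n, (1 + a) ^ r * x ≤ S.Er A z r φ := by
        intro r hr
        induction r with
        | zero => simpa using h0
        | succ r ih =>
          calc (1 + a) ^ (r + 1) * x = (1 + a) * ((1 + a) ^ r * x) := by ring
            _ ≤ (1 + a) * S.Er A z r φ := mul_le_mul_of_nonneg_left (ih (by omega)) (by linarith)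
            _ ≤ _ := h4 r (by omega)
      have h6 := (h5 n le_rfl).trans (Er_le S hA z n φ)
      have h7 : β ^ (3 : ℝ) ≤ (1 + a) ^ (n + 1) := by
        have h8 : k * Real.log β ≤ (n + 1 : ℕ) := by rw [← hnR, hR]; exact Nat.le_ceil _
        have h9 : β ^ (3 : ℝ) = Real.exp (Real.log (1 + a) * (k * Real.log β)) := by
          rw [Real.rpow_def_of_pos hβ0, hk]
          congr 1
          field_simp
        rw [h9]
        have h10 : (1 + a) ^ (n + 1) = Real.exp (Real.log (1 + a) * (n + 1 : ℕ)) := by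
          rw [mul_comm, Real.exp_nat_mul, Real.exp_log (by linarith)]
        rw [h10]
        exact Real.exp_le_exp.2 (mul_le_mul_of_nonneg_left h8 hla.le)
      have h8 : β ^ (3 : ℝ) ≤ 2 * (1 + a) ^ n := by
        refine h7.trans ?_
        rw [pow_succ]
        have : 0 < (1 + a) ^ n := by positivity
        nlinarith
      have h9 : β ^ (3 : ℝ) * x = c.c0 * (β * β * β ^ (2 * e1)) := by
        have : β ^ (3 : ℝ) = β * β * β := by
          rw [show (3 : ℝ) = (3 : ℕ) by norm_num, Real.rpow_natCast]; ring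
        rw [this, hx]
        field_simp
      have h10 : 1 ≤ β ^ (2 * e1) := Real.one_le_rpow hβ1 (by linarith)
      have h11 : c.c0 * (β * β) ≤ 2 * ((1 + a) ^ n * x) := by
        calc c.c0 * (β * β) = c.c0 * (β * β * 1) := by ring
          _ ≤ c.c0 * (β * β * β ^ (2 * e1)) := by gcongr
          _ = β ^ (3 : ℝ) * x := h9.symm
          _ ≤ 2 * (1 + a) ^ n * x := mul_le_mul_of_nonneg_right h8 hx0.le
          _ = _ := by ring
      have h12 : c.C0 * (c.Cg * ((n : ℝ) + 2) ^ c.Dg * c.nm ^ 2) ≤ c.c0 / 2 * β := by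
        have a1' := mul_le_mul_of_nonneg_left a1 (by positivity : 0 ≤ c.c0 / 2)
        rw [Real.rpow_one] at a1'
        refine le_trans ?_ a1'
        have h13 : (n : ℝ) + 2 ≤ (R : ℝ) + 2 := by
          have : (n : ℝ) ≤ R := by exact_mod_cast (by omega : n ≤ R)
          linarith
        calc c.C0 * (c.Cg * ((n : ℝ) + 2) ^ c.Dg * c.nm ^ 2)
            ≤ c.C0 * (c.Cg * ((R : ℝ) + 2) ^ c.Dg * c.nm ^ 2) := by gcongr
          _ = _ := by field_simp
      have h14 : c.c0 * (β * β) ≤ c.c0 * β := by linarith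
      have h15 : β * β ≤ β := le_of_mul_le_mul_left h14 hc0
      nlinarith
    · have h1 : ind (fun φ : ι → K => β ^ (-1 / 2 + e1) < S.nrm (φ z)) φ = 0 := if_neg hbad
      rw [h1]
      exact zero_le
  calc ev ν (S.w β) A (ind fun φ => β ^ (-1 / 2 + e1) < S.nrm (φ z)) ψ
      ≤ ev ν (S.w β) A (fun φ => ∑ r ∈ Finset.range n, ind (Ev r) φ) ψ := ev_mono' hw hun
    _ = ∑ r ∈ Finset.range n, ev ν (S.w β) A (ind (Ev r)) ψ := ev_sum hw _ mEv ψ
    _ ≤ ∑ r ∈ Finset.range n, ENNReal.ofReal (Real.exp X) := by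
        refine Finset.sum_le_sum fun r hr => ?_
        rw [← ev_ev hw (W := S.Bl A z (r + 1)) (Finset.filter_subset _ _) (mEv r)]
        refine (ev_mono' hw (g := fun _ => ENNReal.ofReal (Real.exp X))
          fun φ hφ => key r (Finset.mem_range.1 hr) φ hφ).trans (le_of_eq ?_)
        exact ev_const hw fun φ _ => rfl
    _ = n * ENNReal.ofReal (Real.exp X) := by rw [Finset.sum_const, Finset.card_range, nsmul_eq_mul]
    _ ≤ ENNReal.ofReal (Real.exp n) * ENNReal.ofReal (Real.exp X) := by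
        gcongr
        rw [← ENNReal.ofReal_natCast]
        refine ENNReal.ofReal_le_ofReal ?_
        have := Real.add_one_le_exp (n : ℝ)
        linarith
    _ = ENNReal.ofReal (Real.exp (n + X)) := by
        rw [← ENNReal.ofReal_mul (Real.exp_pos _).le, ← Real.exp_add]
    _ ≤ _ := by
        refine ENNReal.ofReal_le_ofReal (Real.exp_le_exp.2 ?_)
        rw [hX]
        have p0 : 0 ≤ β ^ (2 * e0) := Real.rpow_nonneg hβ0.le _
        have p1 : 0 ≤ β ^ e0 := Real.rpow_nonneg hβ0.le _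
        have p2 : 0 ≤ c.c0 / 8 := by positivity
        have p3 : 0 ≤ β ^ (2 * e1) := Real.rpow_nonneg hβ0.le _
        have p4 : β ^ e1 ≤ β ^ (2 * e1) := Real.rpow_le_rpow_of_exponent_le hβ1 (by linarith)
        have g1 : 2 * (c.C0 * (Q * β ^ (2 * e0))) ≤ c.c0 / 8 * β ^ (2 * e1) := by
          have h1 := mul_le_mul_of_nonneg_right (mul_le_mul_of_nonneg_left a2 p2) p0
          have h2 : β ^ (2 * (e1 - e0)) * β ^ (2 * e0) = β ^ (2 * e1) := by
            rw [← Real.rpow_add hβ0]; congr 1; ring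
          refine le_trans (le_of_eq ?_) (h1.trans (le_of_eq ?_))
          · rw [hQ]; field_simp; ring
          · rw [← h2]; ring
        have g2 : Q * β ^ e0 ≤ c.c0 / 8 * β ^ (2 * e1) := by
          have h1 := mul_le_mul_of_nonneg_right (mul_le_mul_of_nonneg_left a3 p2) p1
          have h2 : β ^ (e1 - e0) * β ^ e0 = β ^ e1 := by
            rw [← Real.rpow_add hβ0]; congr 1; ring
          refine le_trans (le_of_eq ?_) (h1.trans ?_)
          · rw [hQ]; field_simp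
          · rw [mul_assoc, h2]
            exact mul_le_mul_of_nonneg_left p4 p2
        have g3 : (n : ℝ) ≤ c.c0 / 8 * β ^ (2 * e1) := by
          have h1 := mul_le_mul_of_nonneg_left a5 p2
          refine le_trans ?_ h1
          have h2 : c.c0 / 8 * (8 / c.c0 * ((R : ℝ) + 2) ^ 1) = R + 2 := by field_simp
          rw [h2, hnR]
          push_cast
          linarith
        have g4 : β ^ e1 ≤ c.c0 / 8 * β ^ (2 * e1) := by
          have h1 := mul_le_mul_of_nonneg_left a6 p2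
          refine le_trans (le_of_eq ?_) h1
          field_simp
        have g5 : 0 ≤ c.c0 * β ^ (2 * e1) := by positivity
        linarith

end core2

/-- **Hole filling, uniform in the constants.** -/
theorem small2U (Dg : ℕ) {Cc : ℝ} (hCc : 1 ≤ Cc) : Small2U Dg Cc := by
  obtain ⟨a, ha⟩ : ∃ a, a = 1 / (8 * Cc) := ⟨_, rfl⟩
  have ha0 : 0 < a := by rw [ha]; positivity
  have hla : 0 < Real.log (1 + a) := Real.log_pos (by linarith)
  obtain ⟨k, hk⟩ : ∃ k, k = 3 / Real.log (1 + a) := ⟨_, rfl⟩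
  have hk0 : 0 < k := by rw [hk]; positivity
  refine ⟨k, hk0, fun e0 e1 he0 he1 => ?_⟩
  have A1 := fu_rad k hk0.le 2 5 Dg (a := 1) one_pos
  have A2 := fu_rad k hk0.le 16 3 Dg (a := 2 * (e1 - e0)) (by linarith)
  have A3 := fu_rad k hk0.le 8 2 Dg (a := e1 - e0) (by linarith)
  have A4 := kapU_le Dg he0
  have A5 := fu_rad k hk0.le 8 1 1 (a := 2 * e1) (by linarith)
  have A6 := fu_rpow (a := 2 * e1) (b := e1) 8 1 (by linarith)
  filter_upwards [A1, A2, A3, A4, A5, A6, fu_gt 2, fu_one] with p A1 A2 A3 A4 A5 A6 hβ2 hX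
  intro K Y V _ _ _ _ _ _ _ ν _ _ c hD hB ι τ S hcut A hA z hz ψ hψ
  have hc0 := c.hc0
  have hC0 := c.hC0
  have hCg := c.hCg
  have hnm := c.hnm
  have hX0 : 0 < p.2 := by linarith
  have b1 := hB.C0
  have b2 := hB.Cg
  have b3 := hB.nm
  have hi : 1 / c.c0 ≤ p.2 := by
    rw [div_le_iff₀ hc0, mul_comm]
    exact hB.c0
  refine small2_core hCc hcut ha hk hβ2 he0 he1 ?_ ?_ ?_ (A4 c hD hB) (A5 _ ?_) (A6 _ ?_) hA hz ψ hψ
  · rw [hD]
    refine A1 _ ?_
    calc 2 * (c.C0 * c.Cg * c.nm ^ 2) / c.c0 = 2 * (c.C0 * c.Cg * c.nm ^ 2 * (1 / c.c0)) := by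
          field_simp
      _ ≤ 2 * (p.2 * p.2 * p.2 ^ 2 * p.2) := by gcongr
      _ = _ := by ring
  · rw [hD]
    refine A2 _ ?_
    calc 16 * (c.C0 * c.Cg) / c.c0 = 16 * (c.C0 * c.Cg * (1 / c.c0)) := by field_simp
      _ ≤ 16 * (p.2 * p.2 * p.2) := by gcongr
      _ = _ := by ring
  · rw [hD]
    refine A3 _ ?_
    calc 8 * c.Cg / c.c0 = 8 * (c.Cg * (1 / c.c0)) := by field_simp
      _ ≤ 8 * (p.2 * p.2) := by gcongr
      _ = _ := by ring
  · rw [pow_one]
    calc 8 / c.c0 = 8 * (1 / c.c0) := by ring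
      _ ≤ _ := mul_le_mul_of_nonneg_left hi (by norm_num)
  · rw [pow_one]
    calc 8 / c.c0 = 8 * (1 / c.c0) := by ring
      _ ≤ _ := mul_le_mul_of_nonneg_left hi (by norm_num)

end

end Pool.Agent.N990.Mach
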