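import Pool.Agent.N990.U.Flt

/-!
# The uniform machine: energy against entropy, with cutting
-/

set_option autoImplicit false
set_option linter.unusedSectionVars false
set_option linter.unusedVariables false

open MeasureTheory Finset Function Filter Topology
open scoped ENNReal Classical
open Pool.Agent.N986.PB

namespace Pool.Agent.N990.Mach

noncomputable section

variable {ι τ K Y V : Type*} [Group K] [MeasurableSpace K]
    [NormedAddCommGroup Y] [NormedSpace ℝ Y] [NormedAddCommGroup V] [NormedSpace ℝ V]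
    {ν : Measure K} {c : Cst}

namespace Sys

/-- entropy per site -/
def kapU (c : Cst) (β : ℝ) : ℝ :=
  c.C0 * c.Cn * (c.Cg * 2 ^ c.Dg) - Real.log c.cv + c.nv / 2 * Real.log β

variable (S : Sys ι τ K Y V ν c)

/-- the support of a term is in a ball of radius one -/
lemma card_sp {t : τ} (ht : t ∈ S.T) : ((S.sp t).card : ℝ) ≤ c.Cg * 2 ^ c.Dg := by
  rcases (S.sp t).eq_empty_or_nonempty with h | ⟨z, hz⟩
  · rw [h]
    have := c.hCg
    simp only [Finset.card_empty, Nat.cast_zero]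
    positivity
  · have h1 := S.growth (S.sp t) z 1
    have h2 : (S.sp t).filter (fun y => S.d z y ≤ 1) = S.sp t :=
      Finset.filter_true_of_mem fun y hy => S.diam t ht z hz y hy
    rw [h2] at h1
    norm_num at h1
    exact h1

variable {S} {Cc : ℝ}

/-- the energy of a perturbed configuration -/
lemma HA_mul_le (hcut : Cut S Cc) (B : Finset ι) {s : ℝ} (hs : 0 ≤ s) (g φ : ι → K)
    (hg : ∀ y, S.nrm (g y) ≤ s) :
    S.HA B (φ * g) ≤ 2 * S.HA B φ + c.C0 * c.Cn * (c.Cg * 2 ^ c.Dg) * (B.card * s ^ 2) := by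
  have hC0 := c.hC0
  have hCg := c.hCg
  unfold HA
  calc ∑ t ∈ tch S.T S.sp B, S.h t (φ * g)
      ≤ ∑ t ∈ tch S.T S.sp B, (2 * S.h t φ + c.C0 * (c.Cg * 2 ^ c.Dg * s ^ 2)) := by
        refine Finset.sum_le_sum fun t ht => ?_
        have htT := S.tch_sub B ht
        refine (hcut.cont t htT g φ).trans (add_le_add le_rfl
          (mul_le_mul_of_nonneg_left ?_ (by linarith)))
        calc ∑ y ∈ S.sp t, S.nrm (g y) ^ 2 ≤ ∑ y ∈ S.sp t, s ^ 2 :=
              Finset.sum_le_sum fun y _ => pow_le_pow_left₀ (S.nrm_nonneg _) (hg y) 2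
          _ = (S.sp t).card * s ^ 2 := by rw [Finset.sum_const, nsmul_eq_mul]
          _ ≤ _ := mul_le_mul_of_nonneg_right (S.card_sp htT) (sq_nonneg _)
    _ = 2 * ∑ t ∈ tch S.T S.sp B, S.h t φ +
        (tch S.T S.sp B).card * (c.C0 * (c.Cg * 2 ^ c.Dg * s ^ 2)) := by
        rw [Finset.sum_add_distrib, ← Finset.mul_sum, Finset.sum_const, nsmul_eq_mul]
    _ ≤ 2 * ∑ t ∈ tch S.T S.sp B, S.h t φ +
        c.Cn * B.card * (c.C0 * (c.Cg * 2 ^ c.Dg * s ^ 2)) := by
        have := S.tcard B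
        gcongr
    _ = _ := by ring

/-- lower bound of the partition function by the energy of any configuration -/
lemma Z_lowerU [IsProbabilityMeasure ν] [ν.IsMulLeftInvariant] [MeasurableMul K]
    (hcut : Cut S Cc) {β : ℝ} (hβ : 1 ≤ β) (B : Finset ι)
    {χ φ' : ι → K} (hφ' : ∀ i ∉ B, φ' i = χ i) :
    ENNReal.ofReal (Real.exp (-(2 * β * S.HA B φ') - B.card * kapU c β)) ≤
      In ν B (S.wB β B) χ := by
  have hβ0 : 0 < β := by linarith
  obtain ⟨s, hs⟩ : ∃ s : ℝ, s = β ^ (-(1 / 2 : ℝ)) := ⟨_, rfl⟩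
  have hs0 : 0 < s := hs ▸ Real.rpow_pos_of_pos hβ0 _
  have hs1 : s ≤ 1 := hs ▸ Real.rpow_le_one_of_one_le_of_nonpos hβ (by norm_num)
  have hs2 : s ^ 2 = β⁻¹ := by
    rw [hs, ← Real.rpow_natCast, ← Real.rpow_mul hβ0.le]
    norm_num
    exact Real.rpow_neg_one β
  obtain ⟨Gs, hGs⟩ : ∃ Gs : Set K, Gs = {g | S.nrm g ≤ s} := ⟨_, rfl⟩
  have mGs : MeasurableSet Gs := hGs ▸ measurableSet_le S.nrm_meas measurable_const
  obtain ⟨q, hq⟩ : ∃ q : ℝ, q = Real.exp (-(β * (2 * S.HA B φ' +
    c.C0 * c.Cn * (c.Cg * 2 ^ c.Dg) * (B.card * s ^ 2)))) := ⟨_, rfl⟩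
  -- the shift
  have h0 : In ν B (S.wB β B) χ = ∫⁻ y : B → K, S.wB β B (updateFinset χ B
      ((fun i : B => φ' i) * y)) ∂(Measure.pi fun _ => ν) := by
    unfold In lmarginal
    exact (lintegral_mul_left_eq_self (μ := Measure.pi fun _ : B => ν)
      (fun y => S.wB β B (updateFinset χ B y)) (fun i : B => φ' i)).symm
  have h1 : ∀ y : B → K, ENNReal.ofReal q * (Set.pi Set.univ fun _ : B => Gs).indicator 1 y ≤
      S.wB β B (updateFinset χ B ((fun i : B => φ' i) * y)) := by
    intro y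
    by_cases hy : y ∈ Set.pi Set.univ fun _ : B => Gs
    · rw [Set.indicator_of_mem hy, Pi.one_apply, mul_one]
      refine ENNReal.ofReal_le_ofReal ?_
      rw [hq]
      refine Real.exp_le_exp.2 (neg_le_neg (mul_le_mul_of_nonneg_left ?_ hβ0.le))
      have h2 : updateFinset χ B ((fun i : B => φ' i) * y) =
          φ' * (fun i => if h : i ∈ B then y ⟨i, h⟩ else 1) := by
        funext i
        by_cases hi : i ∈ B
        · simp [Function.updateFinset_def, hi]
        · simp [Function.updateFinset_def, hi, hφ' i hi]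
      rw [h2]
      refine HA_mul_le hcut B hs0.le _ _ fun i => ?_
      by_cases hi : i ∈ B
      · rw [dif_pos hi]
        have := hy ⟨i, hi⟩ (Set.mem_univ _)
        rw [hGs] at this
        exact this
      · rw [dif_neg hi, S.nrm_one]
        exact hs0.le
    · rw [Set.indicator_of_notMem hy, mul_zero]
      exact zero_le
  rw [h0]
  refine le_trans ?_ (lintegral_mono h1)
  rw [lintegral_const_mul _ (measurable_one.indicator (MeasurableSet.univ_pi fun _ => mGs)),
    lintegral_indicator_one (MeasurableSet.univ_pi fun _ => mGs), Measure.pi_pi,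
    Finset.prod_const, Finset.card_univ, Fintype.card_coe]
  have h6 : ENNReal.ofReal (c.cv * s ^ c.nv) ≤ ν Gs := hGs ▸ S.vol s hs0 hs1
  have h7 : 0 < c.cv * s ^ c.nv := mul_pos c.hcv (Real.rpow_pos_of_pos hs0 _)
  calc ENNReal.ofReal (Real.exp (-(2 * β * S.HA B φ') - B.card * kapU c β))
      = ENNReal.ofReal q * (ENNReal.ofReal (c.cv * s ^ c.nv)) ^ B.card := by
        rw [← ENNReal.ofReal_pow h7.le, ← ENNReal.ofReal_mul (by rw [hq]; exact (Real.exp_pos _).le)]
        congr 1
        have h8 : c.cv * s ^ c.nv = Real.exp (Real.log c.cv - c.nv / 2 * Real.log β) := by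
          rw [sub_eq_add_neg, Real.exp_add, Real.exp_log c.hcv, hs, ← Real.rpow_mul hβ0.le,
            Real.rpow_def_of_pos hβ0]
          congr 2
          ring
        rw [h8, ← Real.exp_nat_mul, hq, ← Real.exp_add]
        congr 1
        unfold kapU
        have h9 : β * s ^ 2 = 1 := by rw [hs2]; exact mul_inv_cancel₀ hβ0.ne'
        have h10 : β * (2 * S.HA B φ' + c.C0 * c.Cn * (c.Cg * 2 ^ c.Dg) * (B.card * s ^ 2)) =
            2 * β * S.HA B φ' + c.C0 * c.Cn * (c.Cg * 2 ^ c.Dg) * B.card * (β * s ^ 2) := by ring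
        rw [h10, h9]
        ring
    _ ≤ ENNReal.ofReal q * (ν Gs) ^ B.card := by gcongr

/-- **Energy against entropy**: one step, with cutting. -/
theorem stepU [IsProbabilityMeasure ν] [ν.IsMulLeftInvariant] [MeasurableMul K]
    (hcut : Cut S Cc) {β : ℝ} (hβ : 1 ≤ β) (B : Finset ι)
    (χ : ι → K) (E : (ι → K) → Prop) (hE : Measurable (ind E)) (X : ℝ)
    (hX : ∀ φ : ι → K, (∀ i ∉ B, φ i = χ i) → E φ → ∃ φ' : ι → K, (∀ i ∉ B, φ' i = χ i) ∧
      X ≤ β * (S.HA B φ - 2 * S.HA B φ')) :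
    ev ν (S.w β) B (ind E) χ ≤ ENNReal.ofReal (Real.exp (-X + B.card * kapU c β)) := by
  have hβ0 : 0 < β := by linarith
  rw [S.ev_local β B hE χ]
  obtain ⟨Z, hZ⟩ : ∃ Z, Z = In ν B (S.wB β B) χ := ⟨_, rfl⟩
  have h1 : In ν B (fun φ => S.wB β B φ * ind E φ) χ ≤
      ENNReal.ofReal (Real.exp (-X + B.card * kapU c β)) * Z := by
    have h2 : In ν B (fun φ => S.wB β B φ * ind E φ) χ ≤
        In ν B (fun _ : ι → K => ENNReal.ofReal (Real.exp (-X + B.card * kapU c β)) * Z) χ := by
      refine In_mono' fun φ hφ => ?_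
      by_cases hEφ : E φ
      · have : ind E φ = 1 := if_pos hEφ
        rw [this, mul_one]
        obtain ⟨φ', h3, h4⟩ := hX φ hφ hEφ
        have h5 := Z_lowerU hcut hβ B h3
        rw [← hZ] at h5
        refine le_trans ?_ (mul_le_mul_right h5 _)
        rw [← ENNReal.ofReal_mul (Real.exp_pos _).le, ← Real.exp_add]
        refine ENNReal.ofReal_le_ofReal (Real.exp_le_exp.2 ?_)
        linarith
      · have : ind E φ = 0 := if_neg hEφ
        rw [this, mul_zero]; exact zero_le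
    refine h2.trans (le_of_eq ?_)
    unfold In lmarginal
    rw [lintegral_const, measure_univ, mul_one]
  rw [← hZ]
  refine ENNReal.div_le_of_le_mul ?_
  exact h1

end Sys

end

end Pool.Agent.N990.Mach
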